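import Pool.Agent.R497.TD.Defs

/-!
Project TD (MP_4d8f14_an), piece DBD (helper711): mean square over `a` and `x` by blocks.
-/

set_option autoImplicit false

namespace Pool.Agent.R711.TDDBD

open MeasureTheory Filter Finset
open Pool.Agent.R497.TD
open Pool.Agent.Y957.MC (IsFlow flowInv smo)

universe u

section

variable {X : Type u} [MeasurableSpace X] {μ : Measure X} [IsProbabilityMeasure μ] {σ : ℝ → X → X}
  {V : ℕ → X → ℝ}

/-- correlations -/
noncomputable def phi (μ : Measure X) (σ : ℝ → X → X) (V : ℕ → X → ℝ) (n m : ℕ) (s : ℝ) : ℝ :=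
  ∫ x, V n (σ s x) * V m x ∂μ

theorem intg {f : X → ℝ} (hf : Measurable f) (C : ℝ) (hb : ∀ x, |f x| ≤ C) : Integrable f μ :=
  Integrable.of_bound hf.aestronglyMeasurable C (Eventually.of_forall hb)

theorem ii {f : ℝ → ℝ} (hf : Measurable f) (C : ℝ) (hb : ∀ x, |f x| ≤ C) (u v : ℝ) :
    IntervalIntegrable f volume u v := by
  refine (intervalIntegrable_const (c := C)).mono_fun hf.aestronglyMeasurable
    (Eventually.of_forall fun x => ?_)
  simp only [Real.norm_eq_abs]
  exact (hb x).trans (le_abs_self C)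

theorem dsum {f : ℕ → ℕ → ℝ → ℝ} (hf : ∀ n m, IntervalIntegrable (f n m) volume (1 / 2) 3)
    (s t : Finset ℕ) : ∫ a in (1 / 2 : ℝ)..3, ∑ n ∈ s, ∑ m ∈ t, f n m a =
      ∑ n ∈ s, ∑ m ∈ t, ∫ a in (1 / 2 : ℝ)..3, f n m a := by
  have h : ∀ n, IntervalIntegrable (fun a => ∑ m ∈ t, f n m a) volume (1 / 2) 3 := fun n => by
    have h1 := IntervalIntegrable.sum t (f := f n) (fun m _ => hf n m)
    have h2 : (∑ m ∈ t, f n m) = fun a => ∑ m ∈ t, f n m a := by
      funext a
      rw [Finset.sum_apply]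
    rwa [h2] at h1
  rw [intervalIntegral.integral_finsetSum fun n _ => h n]
  exact sum_congr rfl fun n _ => intervalIntegral.integral_finsetSum fun m _ => hf n m

theorem phi_meas (hσ : IsFlow μ σ) (hV : ∀ n, Measurable (V n)) (n m : ℕ) :
    Measurable (phi μ σ V n m) := by
  have h : Measurable fun p : ℝ × X => V n (σ p.1 p.2) * V m p.2 :=
    ((hV n).comp hσ.meas).mul ((hV m).comp measurable_snd)
  exact h.stronglyMeasurable.integral_prod_right'.measurable

omit [IsProbabilityMeasure μ] in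
theorem flow_meas (hσ : IsFlow μ σ) (s : ℝ) : Measurable (σ s) := (hσ.mp s).measurable

theorem phi_bdd (hVb : ∀ n x, |V n x| ≤ 1) (n m : ℕ) (s : ℝ) : |phi μ σ V n m s| ≤ 1 := by
  have h : ‖∫ x, V n (σ s x) * V m x ∂μ‖ ≤ 1 * μ.real Set.univ := by
    refine norm_integral_le_of_norm_le_const (Eventually.of_forall fun x => ?_)
    rw [Real.norm_eq_abs, abs_mul]
    exact mul_le_one₀ (hVb _ _) (abs_nonneg _) (hVb _ _)
  simpa [phi] using h

theorem phi_eq (hσ : IsFlow μ σ) (hV : ∀ n, Measurable (V n)) (n m : ℕ) (a : ℝ) (Q : ℕ → ℝ) :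
    ∫ x, V n (σ (a * Q n) x) * V m (σ (a * Q m) x) ∂μ = phi μ σ V n m (a * (Q n - Q m)) := by
  have h1 : ∀ x, V n (σ (a * Q n) x) * V m (σ (a * Q m) x) =
      (fun y => V n (σ (a * (Q n - Q m)) y) * V m y) (σ (a * Q m) x) := by
    intro x
    have h2 : σ (a * Q n) x = σ (a * (Q n - Q m)) (σ (a * Q m) x) := by
      rw [← hσ.add]
      congr 1
      ring
    simp only [h2]
  have hm : Measurable fun y => V n (σ (a * (Q n - Q m)) y) * V m y :=
    ((hV n).comp (flow_meas hσ _)).mul (hV m)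
  calc ∫ x, V n (σ (a * Q n) x) * V m (σ (a * Q m) x) ∂μ
      = ∫ x, (fun y => V n (σ (a * (Q n - Q m)) y) * V m y) (σ (a * Q m) x) ∂μ :=
        integral_congr_ae (Eventually.of_forall h1)
    _ = ∫ y, V n (σ (a * (Q n - Q m)) y) * V m y ∂(μ.map (σ (a * Q m))) :=
        (integral_map (flow_meas hσ _).aemeasurable hm.aestronglyMeasurable).symm
    _ = phi μ σ V n m (a * (Q n - Q m)) := by rw [(hσ.mp _).map_eq, phi]

theorem sq_eq (hσ : IsFlow μ σ) (hV : ∀ n, Measurable (V n)) (hVb : ∀ n x, |V n x| ≤ 1) (N : ℕ)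
    (c a : ℝ) (Q : ℕ → ℝ) :
    ∫ x, (c * ∑ n ∈ range N, V n (σ (a * Q n) x)) ^ 2 ∂μ =
      c ^ 2 * ∑ n ∈ range N, ∑ m ∈ range N, phi μ σ V n m (a * (Q n - Q m)) := by
  have h1 : ∀ x, (c * ∑ n ∈ range N, V n (σ (a * Q n) x)) ^ 2 =
      c ^ 2 * ∑ n ∈ range N, ∑ m ∈ range N, V n (σ (a * Q n) x) * V m (σ (a * Q m) x) := by
    intro x
    rw [mul_pow, sq (∑ n ∈ range N, V n (σ (a * Q n) x)), sum_mul_sum]
  simp only [h1]
  have hi : ∀ n m, Integrable (fun x => V n (σ (a * Q n) x) * V m (σ (a * Q m) x)) μ := by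
    intro n m
    refine intg (((hV n).comp (flow_meas hσ _)).mul ((hV m).comp (flow_meas hσ _))) 1 fun x => ?_
    rw [abs_mul]
    exact mul_le_one₀ (hVb _ _) (abs_nonneg _) (hVb _ _)
  rw [integral_const_mul, integral_finsetSum _ fun n _ => integrable_finsetSum _ fun m _ => hi n m]
  congr 1
  refine sum_congr rfl fun n _ => ?_
  rw [integral_finsetSum _ fun m _ => hi n m]
  exact sum_congr rfl fun m _ => phi_eq hσ hV n m a Q

theorem sum_blocks (R H : ℕ) (f : ℕ → ℝ) :
    ∑ n ∈ range (R * H), f n = ∑ b ∈ range R, ∑ r ∈ range H, f (b * H + r) := by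
  induction R with
  | zero => simp
  | succ R ih => rw [Nat.succ_mul, sum_range_add, ih, sum_range_succ]

/-- the sum over a pair of blocks at time `s` -/
theorem block_le (hσ : IsFlow μ σ) (hV : ∀ n, Measurable (V n)) (hVb : ∀ n x, |V n x| ≤ 1)
    (H b b' : ℕ) (e s : ℝ) (he : 0 ≤ e) (h1 : ∀ x, |∑ r ∈ range H, V (b * H + r) x| ≤ e)
    (h2 : ∀ x, |∑ r ∈ range H, V (b' * H + r) x| ≤ e) :
    ∑ r ∈ range H, ∑ r' ∈ range H, phi μ σ V (b * H + r) (b' * H + r') s ≤ e ^ 2 := by
  have hi : ∀ n m, Integrable (fun x => V n (σ s x) * V m x) μ := by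
    intro n m
    refine intg (((hV n).comp (flow_meas hσ _)).mul (hV m)) 1 fun x => ?_
    rw [abs_mul]
    exact mul_le_one₀ (hVb _ _) (abs_nonneg _) (hVb _ _)
  have h3 : ∑ r ∈ range H, ∑ r' ∈ range H, phi μ σ V (b * H + r) (b' * H + r') s =
      ∫ x, (∑ r ∈ range H, V (b * H + r) (σ s x)) * (∑ r ∈ range H, V (b' * H + r) x) ∂μ := by
    simp only [sum_mul_sum]
    rw [integral_finsetSum _ fun r _ => integrable_finsetSum _ fun r' _ => hi _ _]
    refine sum_congr rfl fun r _ => ?_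
    rw [integral_finsetSum _ fun r' _ => hi _ _]
    rfl
  rw [h3]
  have h4 : ‖∫ x, (∑ r ∈ range H, V (b * H + r) (σ s x)) * (∑ r ∈ range H, V (b' * H + r) x) ∂μ‖ ≤
      e ^ 2 * μ.real Set.univ := by
    refine norm_integral_le_of_norm_le_const (Eventually.of_forall fun x => ?_)
    rw [Real.norm_eq_abs, abs_mul, sq]
    exact mul_le_mul (h1 _) (h2 _) (abs_nonneg _) he
  have h5 : μ.real Set.univ = 1 := by simp
  rw [h5, mul_one, Real.norm_eq_abs] at h4
  exact (le_abs_self _).trans h4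

theorem bound_int {f : ℝ → ℝ} (C : ℝ) (hb : ∀ x, |f x| ≤ C) :
    |∫ a in (1 / 2 : ℝ)..3, f a| ≤ 5 / 2 * C := by
  have h : ‖∫ a in (1 / 2 : ℝ)..3, f a‖ ≤ C * |3 - 1 / 2| :=
    intervalIntegral.norm_integral_le_of_norm_le_const fun x _ => hb x
  rw [Real.norm_eq_abs] at h
  refine h.trans (le_of_eq ?_)
  rw [abs_of_pos (by norm_num)]
  ring

theorem le_int {f : ℝ → ℝ} (hf : Measurable f) (C : ℝ) (hb : ∀ x, |f x| ≤ C) (D : ℝ)
    (hD : ∀ x, f x ≤ D) : ∫ a in (1 / 2 : ℝ)..3, f a ≤ 5 / 2 * D := by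
  have h : ∫ a in (1 / 2 : ℝ)..3, f a ≤ ∫ a in (1 / 2 : ℝ)..3, D :=
    intervalIntegral.integral_mono_on (by norm_num) (ii hf C hb _ _) intervalIntegrable_const
      fun x _ => hD x
  refine h.trans (le_of_eq ?_)
  rw [intervalIntegral.integral_const, smul_eq_mul]
  ring

end

theorem t_DBD (hK : S_KAP) : S_DBD.{u} := by
  intro X _ μ _ σ V Q R H Bad ε Y Z hσ hV hVb hR hH hY hZ hε hyp
  have hHr : (0 : ℝ) < H := by exact_mod_cast hH
  have hRr : (0 : ℝ) < R := by exact_mod_cast hR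
  let J : ℕ → ℕ → ℝ → ℝ := fun n m y => ∫ a in (1 / 2 : ℝ)..3, phi μ σ V n m (a * y)
  have hpm : ∀ n m y, Measurable fun a : ℝ => phi μ σ V n m (a * y) := fun n m y =>
    (phi_meas hσ hV n m).comp (measurable_id.mul_const y)
  have hpb : ∀ n m y a, |phi μ σ V n m (a * y)| ≤ 1 := fun n m y a => phi_bdd hVb n m _
  have hii : ∀ n m y, IntervalIntegrable (fun a : ℝ => phi μ σ V n m (a * y)) volume (1 / 2) 3 :=
    fun n m y => ii (hpm n m y) 1 (hpb n m y) _ _
  have hJb : ∀ n m y, |J n m y| ≤ 5 / 2 := fun n m y => by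
    have := bound_int 1 (hpb n m y)
    rwa [mul_one] at this
  -- the left side as a sum over pairs
  have hL : ∫ a in (1 / 2 : ℝ)..3, ∫ x, ((1 / ((R * H : ℕ) : ℝ)) *
      ∑ n ∈ range (R * H), V n (σ (a * Q n) x)) ^ 2 ∂μ =
      (1 / ((R * H : ℕ) : ℝ)) ^ 2 * ∑ b ∈ range R, ∑ b' ∈ range R,
        ∑ r ∈ range H, ∑ r' ∈ range H,
          J (b * H + r) (b' * H + r') (Q (b * H + r) - Q (b' * H + r')) := by
    simp only [sq_eq hσ hV hVb]
    rw [intervalIntegral.integral_const_mul]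
    congr 1
    rw [dsum (f := fun n m a => phi μ σ V n m (a * (Q n - Q m))) fun n m => hii n m _]
    have h1 : ∀ n, ∑ m ∈ range (R * H), ∫ a in (1 / 2 : ℝ)..3, phi μ σ V n m (a * (Q n - Q m)) =
        ∑ b' ∈ range R, ∑ r' ∈ range H, J n (b' * H + r') (Q n - Q (b' * H + r')) := by
      intro n
      rw [sum_blocks]
    simp only [h1]
    rw [sum_blocks]
    refine sum_congr rfl fun b _ => ?_
    rw [sum_comm]
  -- the estimate for a pair of blocks
  have hT : ∀ b ∈ range R, ∀ b' ∈ range R, ∑ r ∈ range H, ∑ r' ∈ range H,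
      J (b * H + r) (b' * H + r') (Q (b * H + r) - Q (b' * H + r')) ≤
        (if (b, b') ∈ Bad then 5 / 2 * (H : ℝ) ^ 2 else 0) + (H : ℝ) ^ 2 * (6 * Z / Y) +
          5 / 2 * (ε * H) ^ 2 := by
    intro b hb b' hb'
    have hb := mem_range.1 hb
    have hb' := mem_range.1 hb'
    have hp1 : 0 ≤ (H : ℝ) ^ 2 * (6 * Z / Y) := by positivity
    have hp2 : 0 ≤ 5 / 2 * (ε * H) ^ 2 := by positivity
    by_cases hB : (b, b') ∈ Bad
    · rw [if_pos hB]
      have h1 : ∑ r ∈ range H, ∑ r' ∈ range H,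
          J (b * H + r) (b' * H + r') (Q (b * H + r) - Q (b' * H + r')) ≤
          ∑ r ∈ range H, ∑ r' ∈ range H, (5 / 2 : ℝ) :=
        sum_le_sum fun r _ => sum_le_sum fun r' _ => (le_abs_self _).trans (hJb _ _ _)
      have h2 : ∑ r ∈ range H, ∑ r' ∈ range H, (5 / 2 : ℝ) = 5 / 2 * (H : ℝ) ^ 2 := by
        simp only [sum_const, card_range, nsmul_eq_mul]
        ring
      linarith
    rw [if_neg hB, zero_add]
    rcases hyp b b' hb hb' hB with h0 | h0 | ⟨h1, h2, h3⟩
    · have h1 : ∑ r ∈ range H, ∑ r' ∈ range H,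
          J (b * H + r) (b' * H + r') (Q (b * H + r) - Q (b' * H + r')) = 0 := by
        refine sum_eq_zero fun r hr => sum_eq_zero fun r' _ => ?_
        have h2 : ∀ s, phi μ σ V (b * H + r) (b' * H + r') s = 0 := by
          intro s
          simp only [phi, h0 r (mem_range.1 hr), zero_mul, integral_zero]
        simp only [J, h2, intervalIntegral.integral_zero]
      rw [h1]
      positivity
    · have h1 : ∑ r ∈ range H, ∑ r' ∈ range H,
          J (b * H + r) (b' * H + r') (Q (b * H + r) - Q (b' * H + r')) = 0 := by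
        refine sum_eq_zero fun r _ => sum_eq_zero fun r' hr' => ?_
        have h2 : ∀ s, phi μ σ V (b * H + r) (b' * H + r') s = 0 := by
          intro s
          simp only [phi, h0 r' (mem_range.1 hr'), mul_zero, integral_zero]
        simp only [J, h2, intervalIntegral.integral_zero]
      rw [h1]
      positivity
    · set y' := Q (b * H) - Q (b' * H) with hy'
      have h4 : ∀ r ∈ range H, ∀ r' ∈ range H,
          J (b * H + r) (b' * H + r') (Q (b * H + r) - Q (b' * H + r')) ≤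
            J (b * H + r) (b' * H + r') y' + 6 * Z / Y := by
        intro r hr r' hr'
        obtain ⟨h5, h6⟩ := h1 r r' (mem_range.1 hr) (mem_range.1 hr')
        have h7 : Q (b * H + r) - Q (b' * H + r') ≠ 0 := by
          intro h0
          rw [h0, abs_zero] at h5
          linarith
        have h8 := hK (phi μ σ V (b * H + r) (b' * H + r')) 1 _ y'
          (phi_meas hσ hV _ _) (phi_bdd hVb _ _) h7
        have h9 : 6 * 1 * |Q (b * H + r) - Q (b' * H + r') - y'| /
            |Q (b * H + r) - Q (b' * H + r')| ≤ 6 * Z / Y := by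
          refine div_le_div₀ (by positivity) ?_ hY h5
          linarith
        have h10 := (le_abs_self _).trans (h8.trans h9)
        simp only [J]
        linarith
      have h5 : ∑ r ∈ range H, ∑ r' ∈ range H, J (b * H + r) (b' * H + r') y' ≤
          5 / 2 * (ε * H) ^ 2 := by
        have h6 : ∑ r ∈ range H, ∑ r' ∈ range H, J (b * H + r) (b' * H + r') y' =
            ∫ a in (1 / 2 : ℝ)..3, ∑ r ∈ range H, ∑ r' ∈ range H,
              phi μ σ V (b * H + r) (b' * H + r') (a * y') := by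
          rw [dsum (f := fun r r' a => phi μ σ V (b * H + r) (b' * H + r') (a * y'))
            fun r r' => hii _ _ _]
        rw [h6]
        refine le_int (Finset.measurable_sum _ fun r _ => Finset.measurable_sum _ fun r' _ =>
          hpm _ _ _) ((H : ℝ) * ((H : ℝ) * 1)) (fun a => ?_) _ fun a => ?_
        · refine (abs_sum_le_sum_abs _ _).trans ?_
          have h7 : ∀ r ∈ range H, |∑ r' ∈ range H, phi μ σ V (b * H + r) (b' * H + r') (a * y')| ≤
              (H : ℝ) * 1 := by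
            intro r _
            refine (abs_sum_le_sum_abs _ _).trans ?_
            refine (sum_le_sum fun r' _ => hpb _ _ _ _).trans ?_
            rw [sum_const, card_range, nsmul_eq_mul]
          refine (sum_le_sum h7).trans ?_
          rw [sum_const, card_range, nsmul_eq_mul]
        · exact block_le hσ hV hVb H b b' (ε * H) (a * y') (by positivity) h2 h3
      calc _ ≤ ∑ r ∈ range H, ∑ r' ∈ range H, (J (b * H + r) (b' * H + r') y' + 6 * Z / Y) :=
            sum_le_sum fun r hr => sum_le_sum fun r' hr' => h4 r hr r' hr'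
        _ = ∑ r ∈ range H, ∑ r' ∈ range H, J (b * H + r) (b' * H + r') y' +
            (H : ℝ) ^ 2 * (6 * Z / Y) := by
            simp only [sum_add_distrib, sum_const, card_range, nsmul_eq_mul]
            ring
        _ ≤ _ := by linarith
  -- summation
  have hsum : ∑ b ∈ range R, ∑ b' ∈ range R, ∑ r ∈ range H, ∑ r' ∈ range H,
      J (b * H + r) (b' * H + r') (Q (b * H + r) - Q (b' * H + r')) ≤
      5 / 2 * (H : ℝ) ^ 2 * Bad.card + (R : ℝ) ^ 2 * ((H : ℝ) ^ 2 * (6 * Z / Y) +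
          5 / 2 * (ε * H) ^ 2) := by
    refine (sum_le_sum fun b hb => sum_le_sum fun b' hb' => hT b hb b' hb').trans ?_
    have h1 : ∑ b ∈ range R, ∑ b' ∈ range R, (if (b, b') ∈ Bad then 5 / 2 * (H : ℝ) ^ 2 else 0) ≤
        5 / 2 * (H : ℝ) ^ 2 * Bad.card := by
      rw [← sum_product (f := fun p : ℕ × ℕ => if p ∈ Bad then 5 / 2 * (H : ℝ) ^ 2 else 0),
        ← sum_filter, sum_const, nsmul_eq_mul, mul_comm]
      refine mul_le_mul_of_nonneg_left ?_ (by positivity)
      have h2 : ((range R ×ˢ range R).filter (fun p => p ∈ Bad)).card ≤ Bad.card :=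
        card_le_card fun p hp => (mem_filter.1 hp).2
      exact_mod_cast h2
    simp only [sum_add_distrib, sum_const, card_range, nsmul_eq_mul] at h1 ⊢
    nlinarith [h1]
  rw [hL]
  have hc : (0 : ℝ) ≤ (1 / ((R * H : ℕ) : ℝ)) ^ 2 := by positivity
  refine (mul_le_mul_of_nonneg_left hsum hc).trans ?_
  have h1 : (1 / ((R * H : ℕ) : ℝ)) ^ 2 * (5 / 2 * (H : ℝ) ^ 2 * Bad.card +
      (R : ℝ) ^ 2 * ((H : ℝ) ^ 2 * (6 * Z / Y) + 5 / 2 * (ε * H) ^ 2)) =
      5 / 2 * ((Bad.card : ℝ) / (R : ℝ) ^ 2) + 6 * Z / Y + 5 / 2 * ε ^ 2 := by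
    push_cast
    field_simp
    ring
  rw [h1]
  have h2 : 0 ≤ (Bad.card : ℝ) / (R : ℝ) ^ 2 := by positivity
  nlinarith [sq_nonneg ε]

end Pool.Agent.R711.TDDBD
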