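import Pool.Agent.R623.AF.Stm

/-!
Project AF (helper623), piece KRO: integral solutions of `x ^ p + y ^ p = 1` (helper711).
-/

set_option autoImplicit false

namespace Pool.Agent.R623.AF

open NumberField IsDedekindDomain

namespace KROAux

/-- the product in question -/
noncomputable def PP (K : Type) [Field K] [NumberField K] (q : K × K) : ℝ :=
  ∏ σ : K →+* ℂ, max 1 (max ‖σ q.1‖ ‖σ q.2‖)

theorem factor_le (K : Type) [Field K] [NumberField K] (q : K × K) (σ : K →+* ℂ) :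
    max 1 (max ‖σ q.1‖ ‖σ q.2‖) ≤ PP K q := by
  classical
  unfold PP
  rw [← Finset.mul_prod_erase Finset.univ _ (Finset.mem_univ σ)]
  have h1 : (1 : ℝ) ≤ ∏ τ ∈ Finset.univ.erase σ, max 1 (max ‖τ q.1‖ ‖τ q.2‖) := by
    apply Finset.one_le_prod
    intro τ _
    exact le_max_left _ _
  have h2 : (1 : ℝ) ≤ max 1 (max ‖σ q.1‖ ‖σ q.2‖) := le_max_left _ _
  nlinarith

theorem one_le (K : Type) [Field K] [NumberField K] (q : K × K) : 1 ≤ PP K q := by
  unfold PP
  apply Finset.one_le_prod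
  intro τ _
  exact le_max_left _ _

theorem circle {z w : ℂ} (hz : ‖z‖ = 1) (hw : ‖w‖ = 1) (h : z + w = 1) : z ^ 2 - z + 1 = 0 := by
  have hw' : w = 1 - z := by rw [← h]; ring
  subst hw'
  have h1 : z.re ^ 2 + z.im ^ 2 = 1 := by
    have := Complex.sq_norm z
    rw [hz, Complex.normSq_apply] at this
    nlinarith
  have h2 : (1 - z.re) ^ 2 + z.im ^ 2 = 1 := by
    have := Complex.sq_norm (1 - z)
    rw [hw, Complex.normSq_apply] at this
    simp only [Complex.sub_re, Complex.one_re, Complex.sub_im, Complex.one_im] at this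
    nlinarith
  have h3 : z.re = 1 / 2 := by nlinarith
  have h4 : z.im ^ 2 = 3 / 4 := by rw [h3] at h1; nlinarith
  apply Complex.ext
  · simp only [Complex.add_re, Complex.sub_re, Complex.one_re, Complex.zero_re, pow_two,
      Complex.mul_re]
    rw [h3]
    nlinarith
  · simp only [Complex.add_im, Complex.sub_im, Complex.one_im, Complex.zero_im, pow_two,
      Complex.mul_im]
    rw [h3]
    ring

theorem root_unity (K : Type) [Field K] [NumberField K] (hK : ∀ z : K, z ^ 2 + z + 1 ≠ 0)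
    (p : ℕ) (x y : K) (hx : IsIntegral ℤ x) (hy : IsIntegral ℤ y) (hx0 : x ≠ 0)
    (hy0 : y ≠ 0) (h : x ^ p + y ^ p = 1) : 1 < PP K (x, y) := by
  by_contra hcon
  have hle : PP K (x, y) ≤ 1 := not_lt.1 hcon
  have hx1 : ∀ φ : K →+* ℂ, ‖φ x‖ ≤ 1 := by
    intro φ
    refine le_trans ?_ hle
    refine le_trans ?_ (factor_le K (x, y) φ)
    exact le_trans (le_max_left _ _) (le_max_right _ _)
  have hy1 : ∀ φ : K →+* ℂ, ‖φ y‖ ≤ 1 := by
    intro φ
    refine le_trans ?_ hle
    refine le_trans ?_ (factor_le K (x, y) φ)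
    exact le_trans (le_max_right _ _) (le_max_right _ _)
  obtain ⟨n, hn, hxn⟩ := NumberField.Embeddings.pow_eq_one_of_norm_le_one K ℂ hx0 hx hx1
  obtain ⟨m, hm, hym⟩ := NumberField.Embeddings.pow_eq_one_of_norm_le_one K ℂ hy0 hy hy1
  obtain ⟨σ⟩ : Nonempty (K →+* ℂ) := inferInstance
  have hnx : ‖σ x‖ = 1 := by
    have h1 : ‖σ x‖ ^ n = 1 := by
      rw [← norm_pow, ← map_pow, hxn, map_one, norm_one]
    exact (pow_eq_one_iff_of_nonneg (norm_nonneg _) (by omega)).1 h1
  have hny : ‖σ y‖ = 1 := by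
    have h1 : ‖σ y‖ ^ m = 1 := by
      rw [← norm_pow, ← map_pow, hym, map_one, norm_one]
    exact (pow_eq_one_iff_of_nonneg (norm_nonneg _) (by omega)).1 h1
  have h1 : ‖σ (x ^ p)‖ = 1 := by rw [map_pow, norm_pow, hnx, one_pow]
  have h2 : ‖σ (y ^ p)‖ = 1 := by rw [map_pow, norm_pow, hny, one_pow]
  have h3 : σ (x ^ p) + σ (y ^ p) = 1 := by rw [← map_add, h, map_one]
  have h4 := circle h1 h2 h3
  have h5 : σ ((x ^ p) ^ 2 - x ^ p + 1) = σ 0 := by
    rw [map_zero, ← h4]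
    simp
  have h6 : (x ^ p) ^ 2 - x ^ p + 1 = 0 := σ.injective h5
  apply hK (-(x ^ p))
  rw [← h6]
  ring

end KROAux

open KROAux in
theorem KRO : S_KRO := by
  intro K _ _ hK
  have hfin := NumberField.Embeddings.finite_of_norm_le K ℂ (2 : ℝ)
  set F : Set K := {x : K | IsIntegral ℤ x ∧ ∀ φ : K →+* ℂ, ‖φ x‖ ≤ 2} with hF
  have hT : ((F ×ˢ F) ∩ {q : K × K | 1 < PP K q}).Finite := (hfin.prod hfin).inter_of_left _
  have hV : (insert (2 : ℝ) (PP K '' ((F ×ˢ F) ∩ {q : K × K | 1 < PP K q}))).Finite :=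
    (hT.image _).insert _
  obtain ⟨m, hm, hmin⟩ := hV.exists_minimal (Set.insert_nonempty _ _)
  have hm1 : 1 < m := by
    rcases hm with rfl | ⟨q, hq, rfl⟩
    · norm_num
    · exact hq.2
  have hle : ∀ v ∈ insert (2 : ℝ) (PP K '' ((F ×ˢ F) ∩ {q : K × K | 1 < PP K q})), m ≤ v := by
    intro v hv
    rcases le_total m v with h | h
    · exact h
    · exact hmin hv h
  refine ⟨m - 1, by linarith, ?_⟩
  intro p _ x y hx hy hx0 hy0 h
  have hgt := root_unity K hK p x y hx hy hx0 hy0 h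
  have e1 : ∏ σ : K →+* ℂ, max 1 (max ‖σ x‖ ‖σ y‖) = PP K (x, y) := rfl
  rw [e1]
  by_cases hc : PP K (x, y) < 2
  · have hmem : PP K (x, y) ∈ insert (2 : ℝ)
        (PP K '' ((F ×ˢ F) ∩ {q : K × K | 1 < PP K q})) := by
      right
      refine ⟨(x, y), ⟨⟨⟨hx, ?_⟩, ⟨hy, ?_⟩⟩, hgt⟩, rfl⟩
      · intro φ
        refine le_trans ?_ hc.le
        refine le_trans ?_ (factor_le K (x, y) φ)
        exact le_trans (le_max_left _ _) (le_max_right _ _)
      · intro φ
        refine le_trans ?_ hc.le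
        refine le_trans ?_ (factor_le K (x, y) φ)
        exact le_trans (le_max_right _ _) (le_max_right _ _)
    have := hle _ hmem
    linarith
  · have h2 := hle 2 (Set.mem_insert _ _)
    have h3 := not_lt.1 hc
    linarith

end Pool.Agent.R623.AF
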