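import Pool.Agent.R623.AF.Stm2
import Pool.Agent.R711.AF_KRO

/-!
Project AF (helper623), piece KROU: integral solutions of `x ^ p + y ^ p = 1`, with a constant which
depends only on the degree (helper711).
-/

set_option autoImplicit false

namespace Pool.Agent.R623.AF

open NumberField IsDedekindDomain Polynomial

namespace KROUAux

/-- the bound for the coefficients -/
noncomputable def CC (d : ℕ) : ℕ := Nat.ceil (max (2 : ℝ) 1 ^ d * (d.choose (d / 2) : ℝ))

open Classical in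
/-- the possible conjugates -/
noncomputable def RR (d : ℕ) : Set ℂ :=
  ⋃ (f : ℤ[X]) (_ : f.natDegree ≤ d ∧ ∀ i, f.coeff i ∈ Set.Icc (-(CC d : ℤ)) (CC d)),
    ((f.map (algebraMap ℤ ℂ)).roots.toFinset : Set ℂ)

theorem RR_finite (d : ℕ) : (RR d).Finite := by
  classical
  unfold RR
  convert bUnion_roots_finite (algebraMap ℤ ℂ) d (Set.finite_Icc (-(CC d) : ℤ) (CC d))

theorem mem_RR (K : Type) [Field K] [NumberField K] (d : ℕ) (hd : Module.finrank ℚ K = d)
    (x : K) (hx : IsIntegral ℤ x) (hb : ∀ φ : K →+* ℂ, ‖φ x‖ ≤ 2) (σ : K →+* ℂ) :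
    σ x ∈ RR d := by
  classical
  subst hd
  unfold RR
  simp_rw [Set.mem_iUnion]
  have h_map := minpoly.isIntegrallyClosed_eq_field_fractions' ℚ hx
  refine ⟨minpoly ℤ x, ⟨?_, fun i => ?_⟩, ?_⟩
  · rw [← (minpoly.monic hx).natDegree_map (algebraMap ℤ ℚ), ← h_map]
    exact minpoly.natDegree_le x
  · rw [Set.mem_Icc, ← abs_le, ← @Int.cast_le ℝ]
    refine (Eq.trans_le ?_ <| NumberField.Embeddings.coeff_bdd_of_norm_le hb i).trans
      (Nat.le_ceil _)
    rw [h_map, coeff_map, eq_intCast, Int.norm_cast_rat, Int.norm_eq_abs, Int.cast_abs]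
  · rw [Finset.mem_coe, Multiset.mem_toFinset, mem_roots, IsRoot.def, eval_map]
    · have h1 : eval₂ (algebraMap ℤ ℂ) (σ x) (minpoly ℤ x) =
          σ (eval₂ (algebraMap ℤ K) x (minpoly ℤ x)) := by
        rw [hom_eval₂]
        congr 1
        exact RingHom.ext_int _ _
      rw [h1]
      have h2 : eval₂ (algebraMap ℤ K) x (minpoly ℤ x) = 0 := minpoly.aeval ℤ x
      rw [h2, map_zero]
    · exact ((minpoly.monic hx).map _).ne_zero

/-- the possible factors -/
def VV (d : ℕ) : Set ℝ := (fun q : ℂ × ℂ => max 1 (max ‖q.1‖ ‖q.2‖)) '' (RR d ×ˢ RR d)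

theorem VV_finite (d : ℕ) : (VV d).Finite := ((RR_finite d).prod (RR_finite d)).image _

/-- the possible products -/
def PD (d : ℕ) : Set ℝ := (fun g : Fin d → ℝ => ∏ i, g i) '' (Set.pi Set.univ fun _ => VV d)

theorem PD_finite (d : ℕ) : (PD d).Finite :=
  (Set.Finite.pi (fun _ => VV_finite d)).image _

open KROAux in
theorem mem_PD (K : Type) [Field K] [NumberField K] (d : ℕ) (hd : Module.finrank ℚ K = d)
    (x y : K) (hx : IsIntegral ℤ x) (hy : IsIntegral ℤ y) (hbx : ∀ φ : K →+* ℂ, ‖φ x‖ ≤ 2)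
    (hby : ∀ φ : K →+* ℂ, ‖φ y‖ ≤ 2) : PP K (x, y) ∈ PD d := by
  classical
  have hcard : Fintype.card (K →+* ℂ) = Fintype.card (Fin d) := by
    rw [NumberField.Embeddings.card, hd, Fintype.card_fin]
  have e : (K →+* ℂ) ≃ Fin d := Fintype.equivOfCardEq hcard
  refine ⟨fun i => max 1 (max ‖(e.symm i) x‖ ‖(e.symm i) y‖), ?_, ?_⟩
  · intro i _
    exact ⟨((e.symm i) x, (e.symm i) y), ⟨mem_RR K d hd x hx hbx _, mem_RR K d hd y hy hby _⟩, rfl⟩
  · unfold PP
    exact Equiv.prod_comp e.symm (fun σ : K →+* ℂ => max 1 (max ‖σ x‖ ‖σ y‖))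

end KROUAux

open KROAux KROUAux in
theorem KROU : S_KROU := by
  intro d
  have hV : (insert (2 : ℝ) (PD d ∩ {r : ℝ | 1 < r})).Finite :=
    ((PD_finite d).inter_of_left _).insert _
  obtain ⟨m, hm, hmin⟩ := hV.exists_minimal (Set.insert_nonempty _ _)
  have hm1 : 1 < m := by
    rcases hm with rfl | hm
    · norm_num
    · exact hm.2
  have hle : ∀ v ∈ insert (2 : ℝ) (PD d ∩ {r : ℝ | 1 < r}), m ≤ v := by
    intro v hv
    rcases le_total m v with h | h
    · exact h
    · exact hmin hv h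
  refine ⟨m - 1, by linarith, ?_⟩
  intro K _ _ hd hK p _ x y hx hy hx0 hy0 h
  have hgt := root_unity K hK p x y hx hy hx0 hy0 h
  have e1 : ∏ σ : K →+* ℂ, max 1 (max ‖σ x‖ ‖σ y‖) = PP K (x, y) := rfl
  rw [e1]
  by_cases hc : PP K (x, y) < 2
  · have hmem : PP K (x, y) ∈ insert (2 : ℝ) (PD d ∩ {r : ℝ | 1 < r}) := by
      right
      refine ⟨mem_PD K d hd x y hx hy ?_ ?_, hgt⟩
      · intro φ
        refine le_trans ?_ hc.le
        refine le_trans ?_ (factor_le K (x, y) φ)
        exact le_trans (le_max_left _ _) (le_max_right _ _)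
      · intro φ
        refine le_trans ?_ hc.le
        refine le_trans ?_ (factor_le K (x, y) φ)
        exact le_trans (le_max_right _ _) (le_max_right _ _)
    have := hle _ hmem
    linarith
  · have h2 := hle 2 (Set.mem_insert _ _)
    have h3 := not_lt.1 hc
    linarith

end Pool.Agent.R623.AF
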