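import Pool.Agent.R974.BW.Defs

/-!
Project BW (helper974), piece IND: the blocks of Brownian motion are independent and identically
distributed (helper711).
-/

set_option autoImplicit false

namespace Pool.Agent.R974.BW

open MeasureTheory ProbabilityTheory Filter Topology Set
open Pool.Agent.R967.FB
open scoped ENNReal NNReal

namespace IND

theorem stp_apply (s : ℝ≥0) (w : Pth) (t : ℝ≥0) : stp s w t = w (min t s) := rfl

theorem measurable_stp (s : ℝ≥0) : Measurable (stp s) :=
  measurable_path fun t => measurable_eval (min t s)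

theorem measurable_blk (i : ℕ) : Measurable (blk i) :=
  (measurable_stp 3).comp (measurable_shift (3 * i))

theorem blk_succ (i : ℕ) (w : Pth) : blk (i + 1) w = blk i (shift 3 w) := by
  unfold blk
  rw [shift_shift]
  congr 2
  push_cast
  ring

theorem blk_stp (w : Pth) : blk 0 (stp 3 w) = blk 0 w := by
  ext t
  change stp 3 w (3 * ((0 : ℕ) : ℝ≥0) + min t 3) - stp 3 w (3 * ((0 : ℕ) : ℝ≥0)) =
    w (3 * ((0 : ℕ) : ℝ≥0) + min t 3) - w (3 * ((0 : ℕ) : ℝ≥0))
  rw [stp_apply, stp_apply]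
  have h1 : min (3 * ((0 : ℕ) : ℝ≥0) + min t 3) 3 = 3 * ((0 : ℕ) : ℝ≥0) + min t 3 := by
    simp
  have h2 : min (3 * ((0 : ℕ) : ℝ≥0)) 3 = 3 * ((0 : ℕ) : ℝ≥0) := by
    simp
  rw [h1, h2]

theorem rect (hM : S_MKV) (W : Measure Pth) (hW : IsWiener W) :
    ∀ (N : ℕ) (A : Fin N → Set Pth), (∀ i, MeasurableSet (A i)) →
      W {w | ∀ i : Fin N, blk i w ∈ A i} = ∏ i, W (blk 0 ⁻¹' A i) := by
  have hWp : IsProbabilityMeasure W := hW.isGaussianProcess.isProbabilityMeasure
  intro N
  induction N with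
  | zero =>
    intro A _
    simp
  | succ N ih =>
    intro A hA
    set B : Set Pth := {w | ∀ i : Fin N, blk i w ∈ A i.succ} with hB
    have hBm : MeasurableSet B := by
      have : B = ⋂ i : Fin N, blk i ⁻¹' A i.succ := by
        ext w
        simp [hB]
      rw [this]
      exact MeasurableSet.iInter fun i => measurable_blk i (hA i.succ)
    have hA0 : MeasurableSet (blk 0 ⁻¹' A 0) := measurable_blk 0 (hA 0)
    have hset : {w : Pth | ∀ i : Fin (N + 1), blk i w ∈ A i} =
        {w | stp 3 w ∈ blk 0 ⁻¹' A 0 ∧ shift 3 w ∈ B} := by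
      ext w
      simp only [mem_ofPred_eq, mem_preimage, hB, Fin.forall_fin_succ, Fin.val_zero,
        Fin.val_succ, blk_stp, blk_succ]
    have hmap : Measurable (fun w : Pth => (stp 3 w, shift 3 w)) :=
      (measurable_stp 3).prodMk (measurable_shift 3)
    have hprod : MeasurableSet ((blk 0 ⁻¹' A 0) ×ˢ B) := hA0.prod hBm
    have hk := hM W hW 3 (((blk 0 ⁻¹' A 0) ×ˢ B).indicator 1) (measurable_one.indicator hprod)
    have hL : ∫⁻ w, ((blk 0 ⁻¹' A 0) ×ˢ B).indicator (1 : Pth × Pth → ℝ≥0∞)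
        (stp 3 w, shift 3 w) ∂W = W {w | stp 3 w ∈ blk 0 ⁻¹' A 0 ∧ shift 3 w ∈ B} := by
      have e1 : (fun w : Pth => ((blk 0 ⁻¹' A 0) ×ˢ B).indicator (1 : Pth × Pth → ℝ≥0∞)
          (stp 3 w, shift 3 w)) =
          ((fun w : Pth => (stp 3 w, shift 3 w)) ⁻¹' ((blk 0 ⁻¹' A 0) ×ˢ B)).indicator 1 := by
        funext w
        rfl
      rw [e1, lintegral_indicator_one (hmap hprod)]
      rfl
    have hR : ∫⁻ w₁, ∫⁻ w₂, ((blk 0 ⁻¹' A 0) ×ˢ B).indicator (1 : Pth × Pth → ℝ≥0∞)
        (stp 3 w₁, w₂) ∂W ∂W = W (blk 0 ⁻¹' A 0) * W B := by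
      have e1 : ∀ w₁ : Pth, ∫⁻ w₂, ((blk 0 ⁻¹' A 0) ×ˢ B).indicator (1 : Pth × Pth → ℝ≥0∞)
          (stp 3 w₁, w₂) ∂W = (blk 0 ⁻¹' A 0).indicator (fun _ => W B) w₁ := by
        intro w₁
        by_cases h : w₁ ∈ blk 0 ⁻¹' A 0
        · have h' : stp 3 w₁ ∈ blk 0 ⁻¹' A 0 := by
            rw [mem_preimage, blk_stp]
            exact h
          rw [indicator_of_mem h, ← lintegral_indicator_one hBm]
          congr 1
          funext w₂
          by_cases h2 : w₂ ∈ B
          · rw [indicator_of_mem (show (stp 3 w₁, w₂) ∈ (blk 0 ⁻¹' A 0) ×ˢ B from ⟨h', h2⟩),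
              indicator_of_mem h2]
            rfl
          · rw [indicator_of_notMem (fun h3 => h2 h3.2), indicator_of_notMem h2]
        · have h' : stp 3 w₁ ∉ blk 0 ⁻¹' A 0 := by
            rw [mem_preimage, blk_stp]
            exact h
          rw [indicator_of_notMem h]
          have e2 : (fun w₂ : Pth => ((blk 0 ⁻¹' A 0) ×ˢ B).indicator (1 : Pth × Pth → ℝ≥0∞)
              (stp 3 w₁, w₂)) = fun _ => 0 := by
            funext w₂
            rw [indicator_of_notMem (fun h3 => h' h3.1)]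
          rw [e2, lintegral_zero]
      simp_rw [e1]
      rw [lintegral_indicator_const hA0, mul_comm]
    rw [hset, ← hL, hk, hR, Fin.prod_univ_succ, hB, ih (fun i => A i.succ) fun i => hA i.succ]

end IND

theorem t_IND (hM : S_MKV) : S_IND := by
  intro W hW N
  have hWp : IsProbabilityMeasure W := hW.isGaussianProcess.isProbabilityMeasure
  have hm : Measurable (fun (w : Pth) (i : Fin N) => blk i w) :=
    measurable_pi_lambda _ fun i => IND.measurable_blk i
  have hp : IsProbabilityMeasure (W.map (blk 0)) :=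
    Measure.isProbabilityMeasure_map (IND.measurable_blk 0).aemeasurable
  symm
  apply Measure.pi_eq
  intro A hA
  rw [Measure.map_apply hm (MeasurableSet.univ_pi hA)]
  have e1 : (fun (w : Pth) (i : Fin N) => blk i w) ⁻¹' (Set.pi univ A) =
      {w | ∀ i : Fin N, blk i w ∈ A i} := by
    ext w
    simp
  rw [e1, IND.rect hM W hW N A hA]
  apply Finset.prod_congr rfl
  intro i _
  rw [Measure.map_apply (IND.measurable_blk 0) (hA i)]

end Pool.Agent.R974.BW
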