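import Mathlib

/-!
Two-sorted terms over a pair of modules and a family of operations from the first to the second,
and two-sorted equational logic.
-/

set_option autoImplicit false

namespace Pool.Agent.R711.Terms

universe u v w p q

/-- Terms of sort 1: module terms over `RA` in the variables `x₀, x₁, …` of sort 1. -/
inductive T1 (RA : Type u) : Type u
  | var (n : ℕ) : T1 RA
  | zero : T1 RA
  | add (s t : T1 RA) : T1 RA
  | neg (t : T1 RA) : T1 RA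
  | smul (r : RA) (t : T1 RA) : T1 RA

/-- Terms of sort 2: built from the variables `y₀, y₁, …` of sort 2, the module operations
over `RB`, and the operations indexed by `ι`, the `i`-th of which takes `ar i` terms of sort 1. -/
inductive T2 (RA : Type u) (RB : Type v) (ι : Type w) (ar : ι → ℕ) : Type (max u v w)
  | var (n : ℕ) : T2 RA RB ι ar
  | zero : T2 RA RB ι ar
  | add (s t : T2 RA RB ι ar) : T2 RA RB ι ar
  | neg (t : T2 RA RB ι ar) : T2 RA RB ι ar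
  | smul (r : RB) (t : T2 RA RB ι ar) : T2 RA RB ι ar
  | op (i : ι) (a : Fin (ar i) → T1 RA) : T2 RA RB ι ar

variable {RA : Type u} {RB : Type v} {ι : Type w} {ar : ι → ℕ}

/-- The value of a term of sort 1 in a module. -/
def T1.eval [Ring RA] {P1 : Type p} [AddCommGroup P1] [Module RA P1] (x : ℕ → P1) :
    T1 RA → P1
  | .var n => x n
  | .zero => 0
  | .add s t => T1.eval x s + T1.eval x t
  | .neg t => - T1.eval x t
  | .smul r t => r • T1.eval x t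

/-- The value of a term of sort 2. -/
def T2.eval [Ring RA] [Ring RB] {P1 : Type p} [AddCommGroup P1] [Module RA P1]
    {P2 : Type q} [AddCommGroup P2] [Module RB P2] (F : ∀ i, (Fin (ar i) → P1) → P2)
    (x : ℕ → P1) (y : ℕ → P2) : T2 RA RB ι ar → P2
  | .var n => y n
  | .zero => 0
  | .add s t => T2.eval F x y s + T2.eval F x y t
  | .neg t => - T2.eval F x y t
  | .smul r t => r • T2.eval F x y t
  | .op i a => F i (fun j => T1.eval x (a j))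

/-- Substitution in a term of sort 1. -/
def T1.subst (σ : ℕ → T1 RA) : T1 RA → T1 RA
  | .var n => σ n
  | .zero => .zero
  | .add s t => .add (T1.subst σ s) (T1.subst σ t)
  | .neg t => .neg (T1.subst σ t)
  | .smul r t => .smul r (T1.subst σ t)

/-- Substitution in a term of sort 2. -/
def T2.subst (σ : ℕ → T1 RA) (τ : ℕ → T2 RA RB ι ar) : T2 RA RB ι ar → T2 RA RB ι ar
  | .var n => τ n
  | .zero => .zero
  | .add s t => .add (T2.subst σ τ s) (T2.subst σ τ t)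
  | .neg t => .neg (T2.subst σ τ t)
  | .smul r t => .smul r (T2.subst σ τ t)
  | .op i a => .op i (fun j => T1.subst σ (a j))

/-- Derivability of identities of sort 1 from the set `Γ₁` of identities of sort 1
(identities of sort 2 cannot be used in such derivations, as no operation goes from sort 2
to sort 1). -/
inductive Der1 (Γ₁ : Set (T1 RA × T1 RA)) : T1 RA → T1 RA → Prop
  | ax (s t : T1 RA) (h : (s, t) ∈ Γ₁) (σ : ℕ → T1 RA) : Der1 Γ₁ (s.subst σ) (t.subst σ)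
  | refl (s : T1 RA) : Der1 Γ₁ s s
  | symm (s t : T1 RA) (h : Der1 Γ₁ s t) : Der1 Γ₁ t s
  | trans (s t r : T1 RA) (h : Der1 Γ₁ s t) (h' : Der1 Γ₁ t r) : Der1 Γ₁ s r
  | add (s s' t t' : T1 RA) (h : Der1 Γ₁ s s') (h' : Der1 Γ₁ t t') :
      Der1 Γ₁ (.add s t) (.add s' t')
  | neg (s s' : T1 RA) (h : Der1 Γ₁ s s') : Der1 Γ₁ (.neg s) (.neg s')
  | smul (r : RA) (s s' : T1 RA) (h : Der1 Γ₁ s s') : Der1 Γ₁ (.smul r s) (.smul r s')

/-- Derivability of identities of sort 2 from the sets `Γ₁` and `Γ₂` of identities of sorts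
1 and 2. -/
inductive Der2 (Γ₁ : Set (T1 RA × T1 RA)) (Γ₂ : Set (T2 RA RB ι ar × T2 RA RB ι ar)) :
    T2 RA RB ι ar → T2 RA RB ι ar → Prop
  | ax (s t : T2 RA RB ι ar) (h : (s, t) ∈ Γ₂) (σ : ℕ → T1 RA) (τ : ℕ → T2 RA RB ι ar) :
      Der2 Γ₁ Γ₂ (s.subst σ τ) (t.subst σ τ)
  | refl (s : T2 RA RB ι ar) : Der2 Γ₁ Γ₂ s s
  | symm (s t : T2 RA RB ι ar) (h : Der2 Γ₁ Γ₂ s t) : Der2 Γ₁ Γ₂ t s
  | trans (s t r : T2 RA RB ι ar) (h : Der2 Γ₁ Γ₂ s t) (h' : Der2 Γ₁ Γ₂ t r) : Der2 Γ₁ Γ₂ s r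
  | add (s s' t t' : T2 RA RB ι ar) (h : Der2 Γ₁ Γ₂ s s') (h' : Der2 Γ₁ Γ₂ t t') :
      Der2 Γ₁ Γ₂ (.add s t) (.add s' t')
  | neg (s s' : T2 RA RB ι ar) (h : Der2 Γ₁ Γ₂ s s') : Der2 Γ₁ Γ₂ (.neg s) (.neg s')
  | smul (r : RB) (s s' : T2 RA RB ι ar) (h : Der2 Γ₁ Γ₂ s s') :
      Der2 Γ₁ Γ₂ (.smul r s) (.smul r s')
  | op (i : ι) (a b : Fin (ar i) → T1 RA) (h : ∀ j, Der1 Γ₁ (a j) (b j)) :
      Der2 Γ₁ Γ₂ (.op i a) (.op i b)

theorem T1.subst_var (s : T1 RA) : s.subst .var = s := by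
  induction s with
  | var n => rfl
  | zero => rfl
  | add s t hs ht => simp [T1.subst, hs, ht]
  | neg t ht => simp [T1.subst, ht]
  | smul r t ht => simp [T1.subst, ht]

theorem T2.subst_var (s : T2 RA RB ι ar) : s.subst .var .var = s := by
  induction s with
  | var n => rfl
  | zero => rfl
  | add s t hs ht => simp [T2.subst, hs, ht]
  | neg t ht => simp [T2.subst, ht]
  | smul r t ht => simp [T2.subst, ht]
  | op i a => simp [T2.subst, T1.subst_var]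

section Axioms

/-- The module axioms in sort 1. -/
def ax1 (RA : Type u) [Ring RA] : Set (T1 RA × T1 RA) :=
  ⋃ c : RA × RA,
    {(.add (.add (.var 0) (.var 1)) (.var 2), .add (.var 0) (.add (.var 1) (.var 2))),
     (.add .zero (.var 0), .var 0),
     (.add (.var 0) (.var 1), .add (.var 1) (.var 0)),
     (.add (.neg (.var 0)) (.var 0), .zero),
     (.smul c.1 (.add (.var 0) (.var 1)), .add (.smul c.1 (.var 0)) (.smul c.1 (.var 1))),
     (.smul (c.1 + c.2) (.var 0), .add (.smul c.1 (.var 0)) (.smul c.2 (.var 0))),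
     (.smul (c.1 * c.2) (.var 0), .smul c.1 (.smul c.2 (.var 0))),
     (.smul 1 (.var 0), .var 0)}

/-- The module axioms in sort 2. -/
def ax2 (RA : Type u) (RB : Type v) [Ring RB] (ι : Type w) (ar : ι → ℕ) :
    Set (T2 RA RB ι ar × T2 RA RB ι ar) :=
  ⋃ c : RB × RB,
    {(.add (.add (.var 0) (.var 1)) (.var 2), .add (.var 0) (.add (.var 1) (.var 2))),
     (.add .zero (.var 0), .var 0),
     (.add (.var 0) (.var 1), .add (.var 1) (.var 0)),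
     (.add (.neg (.var 0)) (.var 0), .zero),
     (.smul c.1 (.add (.var 0) (.var 1)), .add (.smul c.1 (.var 0)) (.smul c.1 (.var 1))),
     (.smul (c.1 + c.2) (.var 0), .add (.smul c.1 (.var 0)) (.smul c.2 (.var 0))),
     (.smul (c.1 * c.2) (.var 0), .smul c.1 (.smul c.2 (.var 0))),
     (.smul 1 (.var 0), .var 0)}

theorem ax1_finite [Ring RA] [Finite RA] : (ax1 RA).Finite :=
  Set.finite_iUnion fun _ => Set.toFinite _

theorem ax2_finite [Ring RB] [Finite RB] : (ax2 RA RB ι ar).Finite :=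
  Set.finite_iUnion fun _ => Set.toFinite _

theorem ax1_holds [Ring RA] {P1 : Type p} [AddCommGroup P1] [Module RA P1]
    (e : T1 RA × T1 RA) (he : e ∈ ax1 RA) (x : ℕ → P1) : e.1.eval x = e.2.eval x := by
  obtain ⟨c, hc⟩ := Set.mem_iUnion.1 he
  simp only [Set.mem_insert_iff, Set.mem_singleton_iff] at hc
  rcases hc with h | h | h | h | h | h | h | h <;> subst h <;>
    simp [T1.eval, add_assoc, add_comm, add_smul, mul_smul]

theorem ax2_holds [Ring RA] [Ring RB] {P1 : Type p} [AddCommGroup P1] [Module RA P1]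
    {P2 : Type q} [AddCommGroup P2] [Module RB P2] (F : ∀ i, (Fin (ar i) → P1) → P2)
    (e : T2 RA RB ι ar × T2 RA RB ι ar) (he : e ∈ ax2 RA RB ι ar) (x : ℕ → P1) (y : ℕ → P2) :
    e.1.eval F x y = e.2.eval F x y := by
  obtain ⟨c, hc⟩ := Set.mem_iUnion.1 he
  simp only [Set.mem_insert_iff, Set.mem_singleton_iff] at hc
  rcases hc with h | h | h | h | h | h | h | h <;> subst h <;>
    simp [T2.eval, add_assoc, add_comm, add_smul, mul_smul]

end Axioms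

section Quot1

variable [Ring RA] (Γ₁ : Set (T1 RA × T1 RA))

/-- Derivability as an equivalence relation. -/
def set1 : Setoid (T1 RA) where
  r := Der1 Γ₁
  iseqv := ⟨Der1.refl, fun h => Der1.symm _ _ h, fun h h' => Der1.trans _ _ _ h h'⟩

/-- The free object of sort 1. -/
def Q1 : Type u := Quotient (set1 Γ₁)

/-- The class of a term. -/
def mk1 (s : T1 RA) : Q1 Γ₁ := Quotient.mk (set1 Γ₁) s

theorem mk1_eq {s t : T1 RA} : mk1 Γ₁ s = mk1 Γ₁ t ↔ Der1 Γ₁ s t :=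
  ⟨fun h => Quotient.exact h, fun h => Quotient.sound h⟩

theorem mk1_surj (c : Q1 Γ₁) : ∃ s, mk1 Γ₁ s = c := Quotient.exists_rep c

instance : Zero (Q1 Γ₁) := ⟨mk1 Γ₁ .zero⟩

instance : Add (Q1 Γ₁) :=
  ⟨Quotient.map₂ T1.add fun _ _ h _ _ h' => Der1.add _ _ _ _ h h'⟩

instance : Neg (Q1 Γ₁) := ⟨Quotient.map T1.neg fun _ _ h => Der1.neg _ _ h⟩

instance : SMul RA (Q1 Γ₁) := ⟨fun r => Quotient.map (T1.smul r) fun _ _ h => Der1.smul _ _ _ h⟩

theorem mk1_zero : mk1 Γ₁ .zero = 0 := rfl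

theorem mk1_add (s t : T1 RA) : mk1 Γ₁ (.add s t) = mk1 Γ₁ s + mk1 Γ₁ t := rfl

theorem mk1_neg (s : T1 RA) : mk1 Γ₁ (.neg s) = - mk1 Γ₁ s := rfl

theorem mk1_smul (r : RA) (s : T1 RA) : mk1 Γ₁ (.smul r s) = r • mk1 Γ₁ s := rfl

/-- The substitution with three given values. -/
def sub3 {T : Type*} (a b c : T) : ℕ → T
  | 0 => a
  | 1 => b
  | _ => c

variable {Γ₁} (hΓ : ax1 RA ⊆ Γ₁)

include hΓ in
theorem q1_ax (s t : T1 RA) (h : (s, t) ∈ ax1 RA) (σ : ℕ → T1 RA) :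
    mk1 Γ₁ (s.subst σ) = mk1 Γ₁ (t.subst σ) :=
  (mk1_eq Γ₁).2 (Der1.ax s t (hΓ h) σ)

/-- The group structure on the free object of sort 1. -/
@[reducible] def grp1 : AddCommGroup (Q1 Γ₁) where
  add := (· + ·)
  zero := 0
  neg := Neg.neg
  add_assoc := by
    intro a b c
    obtain ⟨a, rfl⟩ := mk1_surj Γ₁ a
    obtain ⟨b, rfl⟩ := mk1_surj Γ₁ b
    obtain ⟨c, rfl⟩ := mk1_surj Γ₁ c
    exact q1_ax hΓ (.add (.add (.var 0) (.var 1)) (.var 2)) (.add (.var 0) (.add (.var 1) (.var 2)))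
      (Set.mem_iUnion.2 ⟨(0, 0), by simp⟩) (sub3 a b c)
  zero_add := by
    intro a
    obtain ⟨a, rfl⟩ := mk1_surj Γ₁ a
    exact q1_ax hΓ (.add .zero (.var 0)) (.var 0)
      (Set.mem_iUnion.2 ⟨(0, 0), by simp⟩) (sub3 a a a)
  add_zero := by
    intro a
    obtain ⟨a, rfl⟩ := mk1_surj Γ₁ a
    refine (q1_ax hΓ (.add (.var 0) (.var 1)) (.add (.var 1) (.var 0))
      (Set.mem_iUnion.2 ⟨(0, 0), by simp⟩) (sub3 a .zero a)).trans ?_
    exact q1_ax hΓ (.add .zero (.var 0)) (.var 0)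
      (Set.mem_iUnion.2 ⟨(0, 0), by simp⟩) (sub3 a a a)
  neg_add_cancel := by
    intro a
    obtain ⟨a, rfl⟩ := mk1_surj Γ₁ a
    exact q1_ax hΓ (.add (.neg (.var 0)) (.var 0)) .zero
      (Set.mem_iUnion.2 ⟨(0, 0), by simp⟩) (sub3 a a a)
  add_comm := by
    intro a b
    obtain ⟨a, rfl⟩ := mk1_surj Γ₁ a
    obtain ⟨b, rfl⟩ := mk1_surj Γ₁ b
    exact q1_ax hΓ (.add (.var 0) (.var 1)) (.add (.var 1) (.var 0))
      (Set.mem_iUnion.2 ⟨(0, 0), by simp⟩) (sub3 a b a)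
  nsmul := nsmulRec
  zsmul := zsmulRec

/-- The module structure on the free object of sort 1. -/
@[reducible] def mod1 : @Module RA (Q1 Γ₁) _ (grp1 hΓ).toAddCommMonoid :=
  letI := grp1 hΓ
  Module.ofMinimalAxioms
    (by
      intro r a b
      obtain ⟨a, rfl⟩ := mk1_surj Γ₁ a
      obtain ⟨b, rfl⟩ := mk1_surj Γ₁ b
      exact q1_ax hΓ (.smul r (.add (.var 0) (.var 1)))
        (.add (.smul r (.var 0)) (.smul r (.var 1)))
        (Set.mem_iUnion.2 ⟨(r, 0), by simp⟩) (sub3 a b a))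
    (by
      intro r s a
      obtain ⟨a, rfl⟩ := mk1_surj Γ₁ a
      exact q1_ax hΓ (.smul (r + s) (.var 0))
        (.add (.smul r (.var 0)) (.smul s (.var 0)))
        (Set.mem_iUnion.2 ⟨(r, s), by simp⟩) (sub3 a a a))
    (by
      intro r s a
      obtain ⟨a, rfl⟩ := mk1_surj Γ₁ a
      exact q1_ax hΓ (.smul (r * s) (.var 0)) (.smul r (.smul s (.var 0)))
        (Set.mem_iUnion.2 ⟨(r, s), by simp⟩) (sub3 a a a))
    (by
      intro a
      obtain ⟨a, rfl⟩ := mk1_surj Γ₁ a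
      exact q1_ax hΓ (.smul 1 (.var 0)) (.var 0)
        (Set.mem_iUnion.2 ⟨(0, 0), by simp⟩) (sub3 a a a))

theorem eval1_mk (σ : ℕ → T1 RA) (s : T1 RA) :
    @T1.eval RA _ (Q1 Γ₁) (grp1 hΓ) (mod1 hΓ) (fun n => mk1 Γ₁ (σ n)) s
      = mk1 Γ₁ (s.subst σ) := by
  letI := grp1 hΓ
  letI := mod1 hΓ
  induction s with
  | var n => rfl
  | zero => rfl
  | add s t hs ht =>
    simp only [T1.eval, T1.subst, hs, ht]
    rfl
  | neg t ht =>
    simp only [T1.eval, T1.subst, ht]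
    rfl
  | smul r t ht =>
    simp only [T1.eval, T1.subst, ht]
    rfl

end Quot1

section Quot2

variable [Ring RA] [Ring RB] (Γ₁ : Set (T1 RA × T1 RA))
  (Γ₂ : Set (T2 RA RB ι ar × T2 RA RB ι ar))

/-- Derivability as an equivalence relation. -/
def set2 : Setoid (T2 RA RB ι ar) where
  r := Der2 Γ₁ Γ₂
  iseqv := ⟨Der2.refl, fun h => Der2.symm _ _ h, fun h h' => Der2.trans _ _ _ h h'⟩

/-- The free object of sort 2. -/
def Q2 : Type (max u v w) := Quotient (set2 Γ₁ Γ₂)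

/-- The class of a term. -/
def mk2 (s : T2 RA RB ι ar) : Q2 Γ₁ Γ₂ := Quotient.mk (set2 Γ₁ Γ₂) s

theorem mk2_eq {s t : T2 RA RB ι ar} : mk2 Γ₁ Γ₂ s = mk2 Γ₁ Γ₂ t ↔ Der2 Γ₁ Γ₂ s t :=
  ⟨fun h => Quotient.exact h, fun h => Quotient.sound h⟩

theorem mk2_surj (c : Q2 Γ₁ Γ₂) : ∃ s, mk2 Γ₁ Γ₂ s = c := Quotient.exists_rep c

instance : Zero (Q2 Γ₁ Γ₂) := ⟨mk2 Γ₁ Γ₂ .zero⟩

instance : Add (Q2 Γ₁ Γ₂) :=
  ⟨Quotient.map₂ T2.add fun _ _ h _ _ h' => Der2.add _ _ _ _ h h'⟩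

instance : Neg (Q2 Γ₁ Γ₂) := ⟨Quotient.map T2.neg fun _ _ h => Der2.neg _ _ h⟩

instance : SMul RB (Q2 Γ₁ Γ₂) :=
  ⟨fun r => Quotient.map (T2.smul r) fun _ _ h => Der2.smul _ _ _ h⟩

/-- The operations of the free algebra. -/
noncomputable def opQ (i : ι) (c : Fin (ar i) → Q1 Γ₁) : Q2 Γ₁ Γ₂ :=
  mk2 Γ₁ Γ₂ (.op i fun j => (mk1_surj Γ₁ (c j)).choose)

theorem opQ_mk (i : ι) (a : Fin (ar i) → T1 RA) :
    opQ Γ₁ Γ₂ i (fun j => mk1 Γ₁ (a j)) = mk2 Γ₁ Γ₂ (.op i a) := by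
  unfold opQ
  rw [mk2_eq]
  refine Der2.op _ _ _ fun j => ?_
  rw [← mk1_eq]
  exact (mk1_surj Γ₁ (mk1 Γ₁ (a j))).choose_spec

variable {Γ₁ Γ₂} (hΓ : ax1 RA ⊆ Γ₁) (hΓ' : ax2 RA RB ι ar ⊆ Γ₂)

include hΓ' in
theorem q2_ax (s t : T2 RA RB ι ar) (h : (s, t) ∈ ax2 RA RB ι ar) (τ : ℕ → T2 RA RB ι ar) :
    mk2 Γ₁ Γ₂ (s.subst .var τ) = mk2 Γ₁ Γ₂ (t.subst .var τ) :=
  (mk2_eq Γ₁ Γ₂).2 (Der2.ax s t (hΓ' h) .var τ)

/-- The group structure on the free object of sort 2. -/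
@[reducible] def grp2 : AddCommGroup (Q2 Γ₁ Γ₂) where
  add := (· + ·)
  zero := 0
  neg := Neg.neg
  add_assoc := by
    intro a b c
    obtain ⟨a, rfl⟩ := mk2_surj Γ₁ Γ₂ a
    obtain ⟨b, rfl⟩ := mk2_surj Γ₁ Γ₂ b
    obtain ⟨c, rfl⟩ := mk2_surj Γ₁ Γ₂ c
    exact q2_ax hΓ' (.add (.add (.var 0) (.var 1)) (.var 2))
      (.add (.var 0) (.add (.var 1) (.var 2)))
      (Set.mem_iUnion.2 ⟨(0, 0), by simp⟩) (sub3 a b c)
  zero_add := by
    intro a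
    obtain ⟨a, rfl⟩ := mk2_surj Γ₁ Γ₂ a
    exact q2_ax hΓ' (.add .zero (.var 0)) (.var 0)
      (Set.mem_iUnion.2 ⟨(0, 0), by simp⟩) (sub3 a a a)
  add_zero := by
    intro a
    obtain ⟨a, rfl⟩ := mk2_surj Γ₁ Γ₂ a
    refine (q2_ax hΓ' (.add (.var 0) (.var 1)) (.add (.var 1) (.var 0))
      (Set.mem_iUnion.2 ⟨(0, 0), by simp⟩) (sub3 a .zero a)).trans ?_
    exact q2_ax hΓ' (.add .zero (.var 0)) (.var 0)
      (Set.mem_iUnion.2 ⟨(0, 0), by simp⟩) (sub3 a a a)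
  neg_add_cancel := by
    intro a
    obtain ⟨a, rfl⟩ := mk2_surj Γ₁ Γ₂ a
    exact q2_ax hΓ' (.add (.neg (.var 0)) (.var 0)) .zero
      (Set.mem_iUnion.2 ⟨(0, 0), by simp⟩) (sub3 a a a)
  add_comm := by
    intro a b
    obtain ⟨a, rfl⟩ := mk2_surj Γ₁ Γ₂ a
    obtain ⟨b, rfl⟩ := mk2_surj Γ₁ Γ₂ b
    exact q2_ax hΓ' (.add (.var 0) (.var 1)) (.add (.var 1) (.var 0))
      (Set.mem_iUnion.2 ⟨(0, 0), by simp⟩) (sub3 a b a)
  nsmul := nsmulRec
  zsmul := zsmulRec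

/-- The module structure on the free object of sort 2. -/
@[reducible] def mod2 : @Module RB (Q2 Γ₁ Γ₂) _ (grp2 (Γ₁ := Γ₁) hΓ').toAddCommMonoid :=
  letI := grp2 (Γ₁ := Γ₁) hΓ'
  Module.ofMinimalAxioms
    (by
      intro r a b
      obtain ⟨a, rfl⟩ := mk2_surj Γ₁ Γ₂ a
      obtain ⟨b, rfl⟩ := mk2_surj Γ₁ Γ₂ b
      exact q2_ax hΓ' (.smul r (.add (.var 0) (.var 1)))
        (.add (.smul r (.var 0)) (.smul r (.var 1)))
        (Set.mem_iUnion.2 ⟨(r, 0), by simp⟩) (sub3 a b a))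
    (by
      intro r s a
      obtain ⟨a, rfl⟩ := mk2_surj Γ₁ Γ₂ a
      exact q2_ax hΓ' (.smul (r + s) (.var 0))
        (.add (.smul r (.var 0)) (.smul s (.var 0)))
        (Set.mem_iUnion.2 ⟨(r, s), by simp⟩) (sub3 a a a))
    (by
      intro r s a
      obtain ⟨a, rfl⟩ := mk2_surj Γ₁ Γ₂ a
      exact q2_ax hΓ' (.smul (r * s) (.var 0)) (.smul r (.smul s (.var 0)))
        (Set.mem_iUnion.2 ⟨(r, s), by simp⟩) (sub3 a a a))
    (by
      intro a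
      obtain ⟨a, rfl⟩ := mk2_surj Γ₁ Γ₂ a
      exact q2_ax hΓ' (.smul 1 (.var 0)) (.var 0)
        (Set.mem_iUnion.2 ⟨(0, 0), by simp⟩) (sub3 a a a))

theorem eval2_mk (σ : ℕ → T1 RA) (τ : ℕ → T2 RA RB ι ar) (s : T2 RA RB ι ar) :
    @T2.eval RA RB ι ar _ _ (Q1 Γ₁) (grp1 hΓ) (mod1 hΓ) (Q2 Γ₁ Γ₂) (grp2 hΓ') (mod2 hΓ')
      (opQ Γ₁ Γ₂) (fun n => mk1 Γ₁ (σ n)) (fun n => mk2 Γ₁ Γ₂ (τ n)) s
      = mk2 Γ₁ Γ₂ (s.subst σ τ) := by
  letI := grp1 hΓ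
  letI := mod1 hΓ
  letI := grp2 (Γ₁ := Γ₁) hΓ'
  letI := mod2 (Γ₁ := Γ₁) hΓ'
  induction s with
  | var n => rfl
  | zero => rfl
  | add s t hs ht =>
    simp only [T2.eval, T2.subst, hs, ht]
    rfl
  | neg t ht =>
    simp only [T2.eval, T2.subst, ht]
    rfl
  | smul r t ht =>
    simp only [T2.eval, T2.subst, ht]
    rfl
  | op i a =>
    simp only [T2.eval, T2.subst, eval1_mk]
    exact opQ_mk Γ₁ Γ₂ i _

end Quot2

end Pool.Agent.R711.Terms
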