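import Pool.Agent.R711.Core
import Pool.Agent.R711.Terms

/-!
Finite generation of push-stable families, and normal forms of two-sorted terms.
-/

set_option autoImplicit false

namespace Pool.Agent.R711.Basis

open Pool.Agent.R711.Words Pool.Agent.R711.Core Pool.Agent.R711.Terms

section Gen

variable {X : Type*} [Fintype X] {M : Type*} [AddCommGroup M]

theorem push_push {m l k : ℕ} (φ : Fin l → Fin k) (ψ : Fin m → Fin l) (c : (Fin k → X) → M) :
    push ψ (push φ c) = push (φ ∘ ψ) c := by
  classical
  funext v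
  unfold push
  have h1 : ∀ u : Fin l → X, (if u ∘ ψ = v then ∑ w : Fin k → X, (if w ∘ φ = u then c w else 0)
      else 0) = ∑ w : Fin k → X, if u ∘ ψ = v then (if w ∘ φ = u then c w else 0) else 0 := by
    intro u
    split_ifs <;> simp
  simp_rw [h1]
  rw [Finset.sum_comm]
  refine Finset.sum_congr rfl fun w _ => ?_
  rw [Finset.sum_eq_single (w ∘ φ)]
  · simp [Function.comp_assoc]
  · intro u _ hu
    have h2 : ¬ (w ∘ φ = u) := fun h => hu h.symm
    simp [h2]
  · simp

theorem sum_push {l k : ℕ} (φ : Fin l → Fin k) (c : (Fin k → X) → M) {N : Type*}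
    [AddCommMonoid N] (G : (Fin l → X) → (M →+ N)) :
    ∑ u, G u (push φ c u) = ∑ w, G (w ∘ φ) (c w) := by
  classical
  unfold push
  simp_rw [map_sum]
  rw [Finset.sum_comm]
  refine Finset.sum_congr rfl fun w _ => ?_
  rw [Finset.sum_eq_single (w ∘ φ)]
  · simp
  · intro u _ hu
    have h2 : ¬ (w ∘ φ = u) := fun h => hu h.symm
    simp [h2]
  · simp

theorem push_add {l k : ℕ} (φ : Fin l → Fin k) (c d : (Fin k → X) → M) :
    push φ (c + d) = push φ c + push φ d := by
  classical
  funext v
  simp only [push, Pi.add_apply]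
  rw [← Finset.sum_add_distrib]
  refine Finset.sum_congr rfl fun w _ => ?_
  split_ifs <;> simp

theorem push_zero {l k : ℕ} (φ : Fin l → Fin k) : push φ (0 : (Fin k → X) → M) = 0 := by
  classical
  funext v
  simp [push]

theorem push_neg {l k : ℕ} (φ : Fin l → Fin k) (c : (Fin k → X) → M) :
    push φ (-c) = - push φ c := by
  have := push_add φ c (-c)
  rw [add_neg_cancel, push_zero] at this
  exact (neg_eq_of_add_eq_zero_right this.symm).symm

/-- The pushes of the members of level at most `K`. -/
def gens (I : ∀ k, AddSubgroup ((Fin k → X) → M)) (K l : ℕ) : Set ((Fin l → X) → M) :=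
  {d | ∃ k ≤ K, ∃ (φ : Fin l → Fin k) (h : Fin k → Fin l), OrdSurj φ h ∧ ∃ c ∈ I k, push φ c = d}

theorem fin_gen [WellFoundedGT (AddSubgroup M)] (I : ∀ k, AddSubgroup ((Fin k → X) → M)) :
    ∃ K, ∀ l, I l ≤ AddSubgroup.closure (gens I K l) := by
  have hacc := push_acc (X := X) (M := M)
  let J : ℕ → {K : ∀ k, AddSubgroup ((Fin k → X) → M) // PushStable K} := fun K =>
    ⟨fun l => AddSubgroup.closure (gens I K l), by
      intro m l ψ g G d hd
      induction hd using AddSubgroup.closure_induction with
      | mem d hd =>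
        obtain ⟨k, hk, φ, h, H, c, hc, rfl⟩ := hd
        rw [push_push]
        exact AddSubgroup.subset_closure ⟨k, hk, φ ∘ ψ, g ∘ h, H.comp G, c, hc, rfl⟩
      | zero => rw [push_zero]; exact AddSubgroup.zero_mem _
      | add a b _ _ ha hb => rw [push_add]; exact AddSubgroup.add_mem _ ha hb
      | neg a _ ha => rw [push_neg]; exact AddSubgroup.neg_mem _ ha⟩
  have hJ : Monotone J := by
    intro a b hab l
    refine AddSubgroup.closure_mono ?_
    rintro d ⟨k, hk, h⟩
    exact ⟨k, hk.trans hab, h⟩
  obtain ⟨K, hK⟩ := WellFoundedGT.monotone_chain_condition ⟨J, hJ⟩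
  refine ⟨K, fun l c hc => ?_⟩
  have h1 := hK (max K l) (le_max_left _ _)
  have h2 : c ∈ (J (max K l)).1 l := by
    refine AddSubgroup.subset_closure ⟨l, le_max_right _ _, id, id, OrdSurj.id l, c, hc, ?_⟩
    funext v
    exact push_comp Function.surjective_id c v
  have h3 : (J K).1 l = (J (max K l)).1 l := congrFun (congrArg Subtype.val h1) l
  rw [← h3] at h2
  exact h2

end Gen

universe u v w p q

section Ev

variable {RA : Type u} {RB : Type v} {ι : Type w} {ar : ι → ℕ} [Ring RA] [Ring RB]
  [Fintype RA] [Fintype ι] {n : ℕ} (hn : ∀ i, ar i ≤ n)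
  {P1 : Type p} [AddCommGroup P1] [Module RA P1] {P2 : Type q} [AddCommGroup P2] [Module RB P2]
  (F : ∀ i, (Fin (ar i) → P1) → P2)

/-- The value of a combination of operations composed with linear forms. -/
noncomputable def ev {k : ℕ} (c : (Fin k → Fin n → RA) → ι → RB) (x : Fin k → P1) : P2 :=
  ∑ w : Fin k → Fin n → RA, ∑ i, c w i • F i (fun a => ∑ j, w j (Fin.castLE (hn i) a) • x j)

theorem ev_add {k : ℕ} (c d : (Fin k → Fin n → RA) → ι → RB) (x : Fin k → P1) :
    ev hn F (c + d) x = ev hn F c x + ev hn F d x := by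
  unfold ev
  simp only [Pi.add_apply, add_smul, Finset.sum_add_distrib]

theorem ev_zero {k : ℕ} (x : Fin k → P1) :
    ev hn F (0 : (Fin k → Fin n → RA) → ι → RB) x = 0 := by
  unfold ev
  simp

theorem ev_neg {k : ℕ} (c : (Fin k → Fin n → RA) → ι → RB) (x : Fin k → P1) :
    ev hn F (-c) x = - ev hn F c x := by
  unfold ev
  simp only [Pi.neg_apply, neg_smul, Finset.sum_neg_distrib]

theorem ev_smul {k : ℕ} (r : RB) (c : (Fin k → Fin n → RA) → ι → RB) (x : Fin k → P1) :
    ev hn F (r • c) x = r • ev hn F c x := by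
  unfold ev
  simp only [Pi.smul_apply, smul_eq_mul, mul_smul, Finset.smul_sum]

theorem ev_push {l k : ℕ} (φ : Fin l → Fin k) (c : (Fin k → Fin n → RA) → ι → RB)
    (x : Fin l → P1) :
    ev hn F (push φ c) x = ev hn F c (fun i => ∑ j, if φ j = i then x j else 0) := by
  classical
  have h := sum_push φ c (fun u => ({
      toFun := fun m : ι → RB => ∑ i, m i • F i (fun a => ∑ j, u j (Fin.castLE (hn i) a) • x j)
      map_zero' := by simp
      map_add' := fun m m' => by simp [add_smul, Finset.sum_add_distrib] } : (ι → RB) →+ P2))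
  simp only [AddMonoidHom.coe_mk, ZeroHom.coe_mk] at h
  unfold ev
  rw [h]
  refine Finset.sum_congr rfl fun w _ => Finset.sum_congr rfl fun i _ => ?_
  have h3 : ∀ (a : Fin (ar i)), ∑ j, (w ∘ φ) j (Fin.castLE (hn i) a) • x j
      = ∑ i', w i' (Fin.castLE (hn i) a) • ∑ j, if φ j = i' then x j else 0 := by
    intro a
    simp_rw [Finset.smul_sum]
    rw [Finset.sum_comm]
    refine Finset.sum_congr rfl fun j _ => ?_
    rw [Finset.sum_eq_single (φ j)]
    · simp
    · intro i' _ hi'
      rw [if_neg (fun h => hi' h.symm), smul_zero]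
    · simp
  simp_rw [h3]

end Ev

section Lin

variable {RA : Type u} {RB : Type v} {ι : Type w} {ar : ι → ℕ} [Ring RA] [Ring RB]

/-- The coefficients of a term of sort 1. -/
def lin1 : T1 RA → ℕ → RA
  | .var n => fun j => if j = n then 1 else 0
  | .zero => 0
  | .add s t => lin1 s + lin1 t
  | .neg t => - lin1 t
  | .smul r t => fun j => r * lin1 t j

/-- A bound for the variables of a term of sort 1. -/
def bd1 : T1 RA → ℕ
  | .var n => n + 1
  | .zero => 0
  | .add s t => max (bd1 s) (bd1 t)
  | .neg t => bd1 t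
  | .smul _ t => bd1 t

theorem eval1_eq {P1 : Type p} [AddCommGroup P1] [Module RA P1] (x : ℕ → P1) (t : T1 RA) (k : ℕ)
    (hk : bd1 t ≤ k) : T1.eval x t = ∑ j : Fin k, lin1 t j • x j := by
  induction t with
  | var n =>
    simp only [bd1] at hk
    simp only [T1.eval, lin1]
    rw [Finset.sum_eq_single (⟨n, hk⟩ : Fin k)]
    · simp
    · intro j _ hj
      rw [if_neg, zero_smul]
      intro h
      exact hj (Fin.ext h)
    · simp
  | zero => simp [T1.eval, lin1]
  | add s t hs ht =>
    simp only [bd1, max_le_iff] at hk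
    simp only [T1.eval, lin1, hs hk.1, ht hk.2, Pi.add_apply, add_smul, Finset.sum_add_distrib]
  | neg t ht =>
    simp only [bd1] at hk
    simp only [T1.eval, lin1, ht hk, Pi.neg_apply, neg_smul, Finset.sum_neg_distrib]
  | smul r t ht =>
    simp only [bd1] at hk
    simp only [T1.eval, lin1, ht hk, Finset.smul_sum, mul_smul]

/-- The linear part of a term of sort 2. -/
def lin2 : T2 RA RB ι ar → ℕ → RB
  | .var n => fun j => if j = n then 1 else 0
  | .zero => 0
  | .add s t => lin2 s + lin2 t
  | .neg t => - lin2 t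
  | .smul r t => fun j => r * lin2 t j
  | .op _ _ => 0

/-- A bound for the variables of a term of sort 2. -/
def bd2 : T2 RA RB ι ar → ℕ
  | .var n => n + 1
  | .zero => 0
  | .add s t => max (bd2 s) (bd2 t)
  | .neg t => bd2 t
  | .smul _ t => bd2 t
  | .op _ a => Finset.univ.sup fun j => bd1 (a j)

open Classical in
/-- The coefficients of the part of a term of sort 2 made of operations. -/
noncomputable def cf (n k : ℕ) : T2 RA RB ι ar → (Fin k → Fin n → RA) → ι → RB
  | .var _ => 0
  | .zero => 0
  | .add s t => cf n k s + cf n k t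
  | .neg t => - cf n k t
  | .smul r t => r • cf n k t
  | .op i a => fun w i' => if w = (fun (j : Fin k) (b : Fin n) =>
      if h : (b : ℕ) < ar i then lin1 (a ⟨b, h⟩) (j : ℕ) else 0) ∧ i' = i then 1 else 0

variable [Fintype RA] [Fintype ι] {n : ℕ} (hn : ∀ i, ar i ≤ n)
  {P1 : Type p} [AddCommGroup P1] [Module RA P1] {P2 : Type q} [AddCommGroup P2] [Module RB P2]
  (F : ∀ i, (Fin (ar i) → P1) → P2)

theorem eval2_eq (x : ℕ → P1) (y : ℕ → P2) (t : T2 RA RB ι ar) (k : ℕ) (hk : bd2 t ≤ k) :
    T2.eval F x y t = ∑ j : Fin k, lin2 t j • y j + ev hn F (cf n k t) (fun j => x j) := by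
  classical
  induction t with
  | var n =>
    simp only [bd2] at hk
    simp only [T2.eval, lin2, cf, ev_zero, add_zero]
    rw [Finset.sum_eq_single (⟨n, hk⟩ : Fin k)]
    · simp
    · intro j _ hj
      rw [if_neg, zero_smul]
      intro h
      exact hj (Fin.ext h)
    · simp
  | zero => simp [T2.eval, lin2, cf, ev_zero]
  | add s t hs ht =>
    simp only [bd2, max_le_iff] at hk
    simp only [T2.eval, lin2, cf, ev_add, hs hk.1, ht hk.2, Pi.add_apply, add_smul,
      Finset.sum_add_distrib]
    abel
  | neg t ht =>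
    simp only [bd2] at hk
    simp only [T2.eval, lin2, cf, ev_neg, ht hk, Pi.neg_apply, neg_smul, Finset.sum_neg_distrib]
    abel
  | smul r t ht =>
    simp only [bd2] at hk
    simp only [T2.eval, lin2, cf, ev_smul, ht hk, Finset.smul_sum, mul_smul, smul_add]
  | op i a =>
    simp only [bd2, Finset.sup_le_iff, Finset.mem_univ, true_implies] at hk
    simp only [T2.eval, lin2, Pi.zero_apply, zero_smul, Finset.sum_const_zero, zero_add]
    unfold ev
    symm
    rw [Finset.sum_eq_single (fun (j : Fin k) (b : Fin n) =>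
      if h : (b : ℕ) < ar i then lin1 (a ⟨b, h⟩) (j : ℕ) else 0)]
    · rw [Finset.sum_eq_single i]
      · simp only [cf, and_self, if_true, one_smul]
        congr 1
        funext b
        rw [eval1_eq x (a b) k (hk b)]
        refine Finset.sum_congr rfl fun j _ => ?_
        simp
      · intro i' _ hi'
        simp only [cf]
        rw [if_neg (fun h => hi' h.2), zero_smul]
      · simp
    · intro w _ hw
      refine Finset.sum_eq_zero fun i' _ => ?_
      simp only [cf]
      rw [if_neg (fun h => hw h.1), zero_smul]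
    · simp

end Lin

section Tm

variable {RA : Type u} {RB : Type v} {ι : Type w} {ar : ι → ℕ}

/-- The sum of a list of terms of sort 1. -/
def sum1 : List (T1 RA) → T1 RA
  | [] => .zero
  | t :: l => .add t (sum1 l)

/-- The sum of a list of terms of sort 2. -/
def sum2 : List (T2 RA RB ι ar) → T2 RA RB ι ar
  | [] => .zero
  | t :: l => .add t (sum2 l)

/-- The linear form with given coefficients. -/
def form {k : ℕ} (r : Fin k → RA) : T1 RA := sum1 (List.ofFn fun j : Fin k => .smul (r j) (.var j))

variable [Ring RA] [Ring RB]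

theorem eval_sum1 {P1 : Type p} [AddCommGroup P1] [Module RA P1] (x : ℕ → P1)
    (l : List (T1 RA)) : T1.eval x (sum1 l) = (l.map (T1.eval x)).sum := by
  induction l with
  | nil => rfl
  | cons t l ih => simp [sum1, T1.eval, ih]

theorem eval_form {P1 : Type p} [AddCommGroup P1] [Module RA P1] (x : ℕ → P1) {k : ℕ}
    (r : Fin k → RA) : T1.eval x (form r) = ∑ j, r j • x j := by
  unfold form
  rw [eval_sum1, List.map_ofFn, List.sum_ofFn]
  rfl

variable {P1 : Type p} [AddCommGroup P1] [Module RA P1] {P2 : Type q} [AddCommGroup P2]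
  [Module RB P2] (F : ∀ i, (Fin (ar i) → P1) → P2)

theorem eval_sum2 (x : ℕ → P1) (y : ℕ → P2)
    (l : List (T2 RA RB ι ar)) : T2.eval F x y (sum2 l) = (l.map (T2.eval F x y)).sum := by
  induction l with
  | nil => rfl
  | cons t l ih => simp [sum2, T2.eval, ih]

variable [Fintype RA] [Fintype ι] {n : ℕ} (hn : ∀ i, ar i ≤ n)

/-- The term with given coefficients. -/
noncomputable def tm {k : ℕ} (c : (Fin k → Fin n → RA) → ι → RB) : T2 RA RB ι ar :=
  sum2 ((Finset.univ : Finset ((Fin k → Fin n → RA) × ι)).toList.map fun s =>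
    .smul (c s.1 s.2) (.op s.2 fun a => form fun j => s.1 j (Fin.castLE (hn s.2) a)))

theorem eval_tm {k : ℕ} (c : (Fin k → Fin n → RA) → ι → RB) (x : ℕ → P1) (y : ℕ → P2) :
    T2.eval F x y (tm hn c) = ev hn F c (fun j => x j) := by
  unfold tm ev
  rw [eval_sum2, List.map_map, Finset.sum_map_toList, Fintype.sum_prod_type]
  refine Finset.sum_congr rfl fun w _ => Finset.sum_congr rfl fun i _ => ?_
  simp only [Function.comp, T2.eval, eval_form]

end Tm

end Pool.Agent.R711.Basis
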