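import Pool.Agent.R711.Words

/-!
Chain conditions for families of subgroups of `(Fin k → X) → M` stable under ordered surjections.
-/

set_option autoImplicit false

namespace Pool.Agent.R711.Core

open Words

section Lead

variable {M : Type*} [AddCommGroup M] {Y : Type*}

/-- The coefficients at `y` of the members of `H` which vanish at all `y'` with `r y y'`. -/
def lead (r : Y → Y → Prop) (H : AddSubgroup (Y → M)) (y : Y) : AddSubgroup M where
  carrier := {b | ∃ f ∈ H, f y = b ∧ ∀ y', r y y' → f y' = 0}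
  zero_mem' := ⟨0, H.zero_mem, rfl, fun _ _ => rfl⟩
  add_mem' := by
    rintro a b ⟨f, hf, hfa, hf0⟩ ⟨g, hg, hgb, hg0⟩
    refine ⟨f + g, H.add_mem hf hg, by simp [hfa, hgb], fun y' hy' => ?_⟩
    simp [hf0 y' hy', hg0 y' hy']
  neg_mem' := by
    rintro a ⟨f, hf, hfa, hf0⟩
    refine ⟨-f, H.neg_mem hf, by simp [hfa], fun y' hy' => ?_⟩
    simp [hf0 y' hy']

theorem lead_mono (r : Y → Y → Prop) {H H' : AddSubgroup (Y → M)} (h : H ≤ H') (y : Y) :
    lead r H y ≤ lead r H' y := by
  rintro b ⟨f, hf, h1, h2⟩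
  exact ⟨f, h hf, h1, h2⟩

theorem exists_top [Finite Y] (r : Y → Y → Prop) [IsStrictTotalOrder Y r] (f : Y → M)
    (hf : f ≠ 0) : ∃ z, f z ≠ 0 ∧ ∀ y', r z y' → f y' = 0 := by
  have hw : WellFounded (Function.swap r) :=
    Finite.wellFounded_of_trans_of_irrefl (Function.swap r)
  have hne : {z | f z ≠ 0}.Nonempty := by
    by_contra h
    rw [Set.not_nonempty_iff_eq_empty] at h
    apply hf
    funext z
    by_contra hz
    have : z ∈ {z | f z ≠ 0} := hz
    rw [h] at this
    exact this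
  obtain ⟨z, hz, hmin⟩ := hw.has_min _ hne
  refine ⟨z, hz, fun y' hy' => ?_⟩
  by_contra h
  exact hmin y' h hy'

theorem le_of_lead [Finite Y] (r : Y → Y → Prop) [IsStrictTotalOrder Y r]
    {H H' : AddSubgroup (Y → M)} (hle : H ≤ H') (h : ∀ y, lead r H' y ≤ lead r H y) :
    H' ≤ H := by
  have hw : WellFounded r := Finite.wellFounded_of_trans_of_irrefl r
  have key : ∀ y, ∀ f ∈ H', (∀ y', r y y' → f y' = 0) → f ∈ H := by
    intro y
    induction y using hw.induction with
    | _ y ih =>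
      intro f hf hf0
      obtain ⟨g, hg, hgy, hg0⟩ := h y ⟨f, hf, rfl, hf0⟩
      have hd : f - g ∈ H' := H'.sub_mem hf (hle hg)
      have hfg : f - g ∈ H := by
        by_cases hz : f - g = 0
        · rw [hz]; exact H.zero_mem
        · obtain ⟨z, hz1, hz2⟩ := exists_top r (f - g) hz
          have hzy : r z y := by
            rcases trichotomous_of r z y with h1 | h1 | h1
            · exact h1
            · subst h1
              exact absurd (by simp [hgy]) hz1
            · exact absurd (by simp [hf0 z h1, hg0 z h1]) hz1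
          exact ih z hzy _ hd hz2
      have := H.add_mem hfg hg
      simpa using this
  intro f hf
  by_cases hz : f = 0
  · rw [hz]; exact H.zero_mem
  · obtain ⟨z, _, hz2⟩ := exists_top r f hz
    exact key z f hf hz2

end Lead

theorem chain_acc {W : Type*} {R : W → W → Prop}
    (hR : ∀ s : ℕ → W, ∃ g : ℕ → ℕ, StrictMono g ∧ ∀ m n, m < n → R (s (g m)) (s (g n)))
    {L : Type*} [PartialOrder L] {Lat : Type*} [PartialOrder Lat] [WellFoundedGT Lat]
    (Φ : L → W → Lat) (hmono : Monotone Φ)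
    (hinj : ∀ I J, I ≤ J → (∀ w, Φ J w ≤ Φ I w) → J ≤ I)
    (hRel : ∀ I w u, R w u → Φ I w ≤ Φ I u) : WellFoundedGT L := by
  refine ⟨RelEmbedding.wellFounded_iff_isEmpty.2 ⟨fun f => ?_⟩⟩
  have hf : StrictMono f := fun a b hab => f.map_rel_iff.2 hab
  have h1 : ∀ n, ∃ w, ¬ Φ (f (n + 1)) w ≤ Φ (f n) w := by
    intro n
    by_contra h
    push Not at h
    exact absurd (hinj _ _ (hf (Nat.lt_succ_self n)).le h) (not_le_of_gt (hf (Nat.lt_succ_self n)))
  choose w hw using h1
  obtain ⟨g, hg, hg'⟩ := hR w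
  let c : ℕ → Lat := fun m => Φ (f (g m)) (w (g m))
  have hc : StrictMono c := by
    apply strictMono_nat_of_lt_succ
    intro m
    have h2 : Φ (f (g m)) (w (g m)) < Φ (f (g m + 1)) (w (g m)) :=
      lt_of_le_not_ge (hmono (hf (Nat.lt_succ_self _)).le _) (hw (g m))
    have h3 : g m + 1 ≤ g (m + 1) := hg (Nat.lt_succ_self m)
    exact lt_of_lt_of_le h2 (le_trans (hmono (hf.monotone h3) _)
      (hRel _ _ _ (hg' m (m + 1) (Nat.lt_succ_self m))))
  exact (RelEmbedding.wellFounded_iff_isEmpty.1 (wellFounded_gt (α := Lat))).false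
    (RelEmbedding.natGT c (fun n => hc (Nat.lt_succ_self n)))

section Families

variable {X : Type*} {M : Type*} [AddCommGroup M]

/-- The lexicographic order on words. -/
def lexLT [LinearOrder X] {k : ℕ} (w w' : Fin k → X) : Prop := toLex w < toLex w'

theorem lexLT_iff [LinearOrder X] {k : ℕ} (w w' : Fin k → X) :
    lexLT w w' ↔ ∃ i, (∀ j, j < i → w j = w' j) ∧ w i < w' i := Iff.rfl

instance [LinearOrder X] {k : ℕ} : IsStrictTotalOrder (Fin k → X) lexLT :=
  (inferInstance : IsStrictTotalOrder (Lex (Fin k → X)) (· < ·))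

theorem lexLT_comp [LinearOrder X] {l k : ℕ} {φ : Fin l → Fin k} {h : Fin k → Fin l}
    (H : OrdSurj φ h) {w w' : Fin k → X} (hlt : lexLT w w') : lexLT (w ∘ φ) (w' ∘ φ) := by
  rw [lexLT_iff] at *
  obtain ⟨i, hi, hi'⟩ := hlt
  refine ⟨h i, fun j hj => ?_, ?_⟩
  · have h1 : h (φ j) < h i := lt_of_le_of_lt (H.le j) hj
    exact hi _ (H.mono.lt_iff_lt.1 h1)
  · simpa [Function.comp, H.sec] using hi'

theorem lexLT_of_comp [LinearOrder X] {l k : ℕ} {φ : Fin l → Fin k} {h : Fin k → Fin l}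
    (H : OrdSurj φ h) {w w' : Fin k → X} (hlt : lexLT (w ∘ φ) (w' ∘ φ)) : lexLT w w' := by
  rcases trichotomous_of lexLT w w' with h1 | h1 | h1
  · exact h1
  · subst h1
    exact absurd hlt (irrefl_of lexLT _)
  · exact absurd (lexLT_comp H h1) (asymm_of lexLT hlt)

open Classical in
/-- The image of a function under the map of words given by `φ`. -/
noncomputable def push [Fintype X] {l k : ℕ} (φ : Fin l → Fin k) (c : (Fin k → X) → M)
    (u : Fin l → X) : M :=
  ∑ w : Fin k → X, if w ∘ φ = u then c w else 0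

/-- The inverse image of a function under the map of words given by `φ`. -/
def pull {l k : ℕ} (φ : Fin l → Fin k) (f : (Fin l → X) → M) (w : Fin k → X) : M := f (w ∘ φ)

theorem push_comp [Fintype X] {l k : ℕ} {φ : Fin l → Fin k} (hφ : Function.Surjective φ)
    (c : (Fin k → X) → M) (w : Fin k → X) : push φ c (w ∘ φ) = c w := by
  classical
  unfold push
  rw [Finset.sum_eq_single w]
  · simp
  · intro w' _ hw'
    rw [if_neg]
    intro h
    exact hw' (hφ.injective_comp_right h)
  · simp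

theorem push_ne [Fintype X] {l k : ℕ} {φ : Fin l → Fin k}
    (c : (Fin k → X) → M) (u : Fin l → X) (h : ∀ w : Fin k → X, w ∘ φ ≠ u) : push φ c u = 0 := by
  classical
  unfold push
  exact Finset.sum_eq_zero fun w _ => if_neg (h w)

/-- Stability under pushing along ordered surjections. -/
def PushStable [Fintype X] (K : ∀ k, AddSubgroup ((Fin k → X) → M)) : Prop :=
  ∀ (l k : ℕ) (φ : Fin l → Fin k) (h : Fin k → Fin l), OrdSurj φ h → ∀ c ∈ K k, push φ c ∈ K l

/-- Stability under pulling along ordered surjections. -/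
def PullStable (K : ∀ k, AddSubgroup ((Fin k → X) → M)) : Prop :=
  ∀ (l k : ℕ) (φ : Fin l → Fin k) (h : Fin k → Fin l), OrdSurj φ h → ∀ f ∈ K l, pull φ f ∈ K k

theorem push_acc [Fintype X] [WellFoundedGT (AddSubgroup M)] :
    WellFoundedGT {K : ∀ k, AddSubgroup ((Fin k → X) → M) // PushStable K} := by
  classical
  obtain ⟨e⟩ : Nonempty (X ≃ Fin (Fintype.card X)) := ⟨Fintype.equivFin X⟩
  let _ : LinearOrder X := LinearOrder.lift' e e.injective
  refine chain_acc (W := Σ k : ℕ, (Fin k → X)) (R := Rel) exists_subseq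
    (Lat := AddSubgroup M) (fun K w => lead lexLT (K.1 w.1) w.2) ?_ ?_ ?_
  · intro I J hIJ w
    exact lead_mono _ (hIJ _) _
  · intro I J hIJ h k
    exact le_of_lead lexLT (hIJ k) (fun y => h ⟨k, y⟩)
  · rintro K ⟨k, w⟩ ⟨l, u⟩ ⟨φ, h, H, hu⟩
    rintro b ⟨f, hf, hfb, hf0⟩
    simp only at hu H φ h hf hfb hf0 ⊢
    subst hu
    refine ⟨push φ f, K.2 _ _ _ _ H _ hf, ?_, ?_⟩
    · rw [push_comp H.surj, hfb]
    · intro u' hu'
      by_cases hex : ∃ w' : Fin k → X, w' ∘ φ = u'
      · obtain ⟨w', rfl⟩ := hex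
        rw [push_comp H.surj]
        exact hf0 w' (lexLT_of_comp H hu')
      · push Not at hex
        exact push_ne f u' hex

theorem pull_dcc [Finite X] [WellFoundedLT (AddSubgroup M)] :
    WellFoundedLT {K : ∀ k, AddSubgroup ((Fin k → X) → M) // PullStable K} := by
  classical
  have := Fintype.ofFinite X
  obtain ⟨e⟩ : Nonempty (X ≃ Fin (Fintype.card X)) := ⟨Fintype.equivFin X⟩
  let _ : LinearOrder X := LinearOrder.lift' e e.injective
  have : WellFoundedGT {K : ∀ k, AddSubgroup ((Fin k → X) → M) // PullStable K}ᵒᵈ := by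
    refine chain_acc (W := Σ k : ℕ, (Fin k → X)) (R := Rel) exists_subseq
      (Lat := (AddSubgroup M)ᵒᵈ)
      (fun K w => OrderDual.toDual (lead lexLT ((OrderDual.ofDual K).1 w.1) w.2)) ?_ ?_ ?_
    · intro I J hIJ w
      exact lead_mono _ (hIJ _) _
    · intro I J hIJ h k
      exact le_of_lead lexLT (hIJ k) (fun y => h ⟨k, y⟩)
    · rintro K ⟨k, w⟩ ⟨l, u⟩ ⟨φ, h, H, hu⟩
      rintro b ⟨f, hf, hfb, hf0⟩
      simp only at hu H φ h hf hfb hf0 ⊢
      subst hu
      refine ⟨pull φ f, (OrderDual.ofDual K).2 _ _ _ _ H _ hf, hfb, ?_⟩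
      intro w' hw'
      exact hf0 _ (lexLT_comp H hw')
  exact (wellFoundedGT_dual_iff _).1 this

end Families

end Pool.Agent.R711.Core
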