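import Pool.Agent.R955.FD.Defs

/-!
Project FD (MP_0880e2_an), piece LQ (helper711): properties of the `ℓ^q` norm on `[0, ∞]^ℕ`.
-/

set_option autoImplicit false

namespace Pool.Agent.R711.FDLQ

open MeasureTheory Set Filter Topology
open scoped ENNReal
open Pool.Agent.R955.FD

theorem t_LQ : S_LQ := by
  intro q hq1
  by_cases hq : q = ∞
  · subst hq
    have e : ∀ a : ℕ → ℝ≥0∞, lq ∞ a = ⨆ i, a i := fun a => if_pos rfl
    refine ⟨fun a b h => ?_, fun a b => ?_, fun C a => ?_, fun S a δ h0 hδ => ?_,
      fun a b M hm hb hM => ?_⟩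
    · rw [e, e]
      exact iSup_mono h
    · rw [e, e, e]
      exact iSup_le fun i => add_le_add (le_iSup a i) (le_iSup b i)
    · rw [e, e, ENNReal.mul_iSup]
    · rw [e]
      refine iSup_le fun i => ?_
      by_cases hi : i ∈ S
      · have h1 : (1 : ℝ≥0∞) ≤ S.card := by
          exact_mod_cast Finset.card_pos.2 ⟨i, hi⟩
        calc a i ≤ 1 * δ := by rw [one_mul]; exact hδ i
          _ ≤ S.card * δ := by gcongr
      · rw [h0 i hi]
        exact zero_le
    · rw [e]
      refine iSup_le fun i => ?_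
      rw [hb]
      refine iSup_le fun R => ?_
      have h1 := hM {i} R
      rw [e] at h1
      refine le_trans ?_ h1
      refine le_trans ?_ (le_iSup (fun j => if j ∈ ({i} : Finset ℕ) then a R j else 0) i)
      simp
  · obtain ⟨r, hr⟩ : ∃ r, r = q.toReal := ⟨_, rfl⟩
    have hr1 : 1 ≤ r := by
      rw [hr]
      have := (ENNReal.toReal_le_toReal ENNReal.one_ne_top hq).2 hq1
      simpa using this
    have hr0 : 0 < r := by linarith
    have e : ∀ a : ℕ → ℝ≥0∞, lq q a = (∑' i, a i ^ r) ^ (1 / r) := fun a => by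
      rw [hr]
      exact if_neg hq
    refine ⟨fun a b h => ?_, fun a b => ?_, fun C a => ?_, fun S a δ h0 hδ => ?_,
      fun a b M hm hb hM => ?_⟩
    · rw [e, e]
      exact ENNReal.rpow_le_rpow (ENNReal.tsum_le_tsum fun i => ENNReal.rpow_le_rpow (h i) hr0.le)
        (by positivity)
    · rw [e, e, e]
      have h1 := ENNReal.lintegral_Lp_add_le (μ := (Measure.count : Measure ℕ)) (f := a) (g := b)
        (measurable_of_countable a).aemeasurable (measurable_of_countable b).aemeasurable hr1
      simp only [lintegral_count, Pi.add_apply] at h1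
      exact h1
    · rw [e, e]
      have h1 : ∀ i, (C * a i) ^ r = C ^ r * a i ^ r := fun i =>
        ENNReal.mul_rpow_of_nonneg _ _ hr0.le
      simp only [h1]
      rw [ENNReal.tsum_mul_left, ENNReal.mul_rpow_of_nonneg _ _ (by positivity),
        ← ENNReal.rpow_mul, mul_one_div_cancel hr0.ne', ENNReal.rpow_one]
    · rw [e, tsum_eq_sum (s := S) fun i hi => by rw [h0 i hi, ENNReal.zero_rpow_of_pos hr0]]
      have h1 : ∑ i ∈ S, a i ^ r ≤ S.card * δ ^ r := by
        refine (Finset.sum_le_sum fun i _ => ENNReal.rpow_le_rpow (hδ i) hr0.le).trans ?_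
        rw [Finset.sum_const, nsmul_eq_mul]
      refine (ENNReal.rpow_le_rpow h1 (by positivity)).trans ?_
      rw [ENNReal.mul_rpow_of_nonneg _ _ (by positivity), ← ENNReal.rpow_mul,
        mul_one_div_cancel hr0.ne', ENNReal.rpow_one]
      refine mul_le_mul_left ?_ δ
      rcases Nat.eq_zero_or_pos S.card with h2 | h2
      · rw [h2, Nat.cast_zero, ENNReal.zero_rpow_of_pos (by positivity)]
      · have h3 : (1 : ℝ≥0∞) ≤ S.card := by exact_mod_cast h2
        have h4 := ENNReal.rpow_le_rpow_of_exponent_le h3 (show 1 / r ≤ 1 by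
          rw [div_le_one hr0]
          exact hr1)
        rwa [ENNReal.rpow_one] at h4
    · rw [e, one_div, ENNReal.rpow_inv_le_iff hr0, ENNReal.tsum_eq_iSup_sum]
      refine iSup_le fun S => ?_
      have h1 : ∀ i, b i ^ r = ⨆ R, a R i ^ r := by
        intro i
        rw [hb]
        exact (ENNReal.orderIsoRpow r hr0).map_iSup _
      simp only [h1]
      rw [ENNReal.finsetSum_iSup_of_monotone fun i R R' hR =>
        ENNReal.rpow_le_rpow (hm R R' i hR) hr0.le]
      refine iSup_le fun R => ?_
      have h2 := hM S R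
      rw [e, one_div, ENNReal.rpow_inv_le_iff hr0,
        tsum_eq_sum (s := S) fun i hi => by rw [if_neg hi, ENNReal.zero_rpow_of_pos hr0]] at h2
      refine le_trans (le_of_eq ?_) h2
      exact Finset.sum_congr rfl fun i hi => by rw [if_pos hi]

end Pool.Agent.R711.FDLQ
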