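import Mathlib

/-!
Maximal filters and maximal ideals of the lattice of subspaces of a vector space of infinite
dimension; basic facts.
-/

set_option autoImplicit false

namespace Pool.Agent.R711.Filt

open Pointwise Cardinal Module

universe u v w

variable {F : Type u} {V : Type v} [Field F] [AddCommGroup V] [Module F V]

/-- Filters of the lattice of subspaces of `V`. -/
structure IsFilter (𝓕 : Set (Submodule F V)) : Prop where
  top_mem : ⊤ ∈ 𝓕
  bot_notMem : ⊥ ∉ 𝓕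
  up : ∀ U ∈ 𝓕, ∀ W, U ≤ W → W ∈ 𝓕
  inf : ∀ U ∈ 𝓕, ∀ W ∈ 𝓕, U ⊓ W ∈ 𝓕

/-- Ideals of the lattice of subspaces of `V`. -/
structure IsIdeal (𝓘 : Set (Submodule F V)) : Prop where
  bot_mem : ⊥ ∈ 𝓘
  top_notMem : ⊤ ∉ 𝓘
  down : ∀ U ∈ 𝓘, ∀ W, W ≤ U → W ∈ 𝓘
  sup : ∀ U ∈ 𝓘, ∀ W ∈ 𝓘, U ⊔ W ∈ 𝓘

theorem mem_smul {g : V ≃ₗ[F] V} {U : Submodule F V} {x : V} : x ∈ g • U ↔ g.symm x ∈ U := by
  rw [Submodule.mem_smul_pointwise_iff_exists]
  constructor
  · rintro ⟨b, hb, rfl⟩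
    simpa using hb
  · intro h
    exact ⟨g.symm x, h, by simp⟩

theorem smul_mono {g : V ≃ₗ[F] V} {U W : Submodule F V} : g • U ≤ g • W ↔ U ≤ W := by
  constructor
  · intro h x hx
    have : g x ∈ g • U := mem_smul.2 (by simpa using hx)
    simpa using mem_smul.1 (h this)
  · intro h x hx
    exact mem_smul.2 (h (mem_smul.1 hx))

theorem smul_inf (g : V ≃ₗ[F] V) (U W : Submodule F V) : g • (U ⊓ W) = g • U ⊓ g • W := by
  ext x
  simp only [Submodule.mem_inf, mem_smul]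

theorem smul_top' (g : V ≃ₗ[F] V) : g • (⊤ : Submodule F V) = ⊤ := by
  ext x
  simp [mem_smul]

theorem smul_bot' (g : V ≃ₗ[F] V) : g • (⊥ : Submodule F V) = ⊥ := by
  ext x
  simp [mem_smul]

theorem smul_sup' (g : V ≃ₗ[F] V) (U W : Submodule F V) : g • (U ⊔ W) = g • U ⊔ g • W :=
  Submodule.map_sup _ _ _

theorem mem_smul_set' {g : V ≃ₗ[F] V} {𝓕 : Set (Submodule F V)} {U : Submodule F V} :
    U ∈ g • 𝓕 ↔ g⁻¹ • U ∈ 𝓕 := Set.mem_smul_set_iff_inv_smul_mem

theorem IsFilter.smul {𝓕 : Set (Submodule F V)} (h : IsFilter 𝓕) (g : V ≃ₗ[F] V) :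
    IsFilter (g • 𝓕) where
  top_mem := mem_smul_set'.2 (by rw [smul_top']; exact h.top_mem)
  bot_notMem := fun hb => h.bot_notMem (by
    have := mem_smul_set'.1 hb
    rwa [smul_bot'] at this)
  up := fun U hU W hUW => mem_smul_set'.2 (h.up _ (mem_smul_set'.1 hU) _ (smul_mono.2 hUW))
  inf := fun U hU W hW => mem_smul_set'.2 (by
    rw [smul_inf]
    exact h.inf _ (mem_smul_set'.1 hU) _ (mem_smul_set'.1 hW))

theorem IsIdeal.smul {𝓘 : Set (Submodule F V)} (h : IsIdeal 𝓘) (g : V ≃ₗ[F] V) :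
    IsIdeal (g • 𝓘) where
  bot_mem := mem_smul_set'.2 (by rw [smul_bot']; exact h.bot_mem)
  top_notMem := fun hb => h.top_notMem (by
    have := mem_smul_set'.1 hb
    rwa [smul_top'] at this)
  down := fun U hU W hUW => mem_smul_set'.2 (h.down _ (mem_smul_set'.1 hU) _ (smul_mono.2 hUW))
  sup := fun U hU W hW => mem_smul_set'.2 (by
    rw [smul_sup']
    exact h.sup _ (mem_smul_set'.1 hU) _ (mem_smul_set'.1 hW))

theorem maxFilter_smul {𝓕 : Set (Submodule F V)} (h : Maximal IsFilter 𝓕) (g : V ≃ₗ[F] V) :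
    Maximal IsFilter (g • 𝓕) := by
  refine ⟨h.1.smul g, fun 𝓖 h𝓖 hle => ?_⟩
  have h1 : 𝓕 ⊆ g⁻¹ • 𝓖 := by
    intro U hU
    rw [mem_smul_set', inv_inv]
    exact hle (Set.smul_mem_smul_set hU)
  have h2 := h.2 (h𝓖.smul g⁻¹) h1
  intro U hU
  rw [mem_smul_set']
  apply h2
  exact Set.smul_mem_smul_set hU

theorem maxIdeal_smul {𝓘 : Set (Submodule F V)} (h : Maximal IsIdeal 𝓘) (g : V ≃ₗ[F] V) :
    Maximal IsIdeal (g • 𝓘) := by
  refine ⟨h.1.smul g, fun 𝓖 h𝓖 hle => ?_⟩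
  have h1 : 𝓘 ⊆ g⁻¹ • 𝓖 := by
    intro U hU
    rw [mem_smul_set', inv_inv]
    exact hle (Set.smul_mem_smul_set hU)
  have h2 := h.2 (h𝓖.smul g⁻¹) h1
  intro U hU
  rw [mem_smul_set']
  apply h2
  exact Set.smul_mem_smul_set hU

theorem max_disj {𝓕 : Set (Submodule F V)} (h : Maximal IsFilter 𝓕) {W : Submodule F V}
    (hW : W ∉ 𝓕) : ∃ U ∈ 𝓕, U ⊓ W = ⊥ := by
  by_contra hcon
  push Not at hcon
  apply hW
  have h1 : IsFilter {X | ∃ U ∈ 𝓕, U ⊓ W ≤ X} :=
    { top_mem := ⟨⊤, h.1.top_mem, le_top⟩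
      bot_notMem := by
        rintro ⟨U, hU, hle⟩
        exact hcon U hU (le_bot_iff.1 hle)
      up := by
        rintro X ⟨U, hU, hle⟩ Y hXY
        exact ⟨U, hU, hle.trans hXY⟩
      inf := by
        rintro X ⟨U, hU, hle⟩ Y ⟨U', hU', hle'⟩
        refine ⟨U ⊓ U', h.1.inf _ hU _ hU', le_inf ?_ ?_⟩
        · exact (inf_le_inf_right _ inf_le_left).trans hle
        · exact (inf_le_inf_right _ inf_le_right).trans hle' }
  exact h.2 h1 (fun X hX => ⟨X, hX, inf_le_left⟩) ⟨⊤, h.1.top_mem, inf_le_right⟩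

theorem max_codisj {𝓘 : Set (Submodule F V)} (h : Maximal IsIdeal 𝓘) {W : Submodule F V}
    (hW : W ∉ 𝓘) : ∃ U ∈ 𝓘, U ⊔ W = ⊤ := by
  by_contra hcon
  push Not at hcon
  apply hW
  have h1 : IsIdeal {X | ∃ U ∈ 𝓘, X ≤ U ⊔ W} :=
    { bot_mem := ⟨⊥, h.1.bot_mem, bot_le⟩
      top_notMem := by
        rintro ⟨U, hU, hle⟩
        exact hcon U hU (top_le_iff.1 hle)
      down := by
        rintro X ⟨U, hU, hle⟩ Y hXY
        exact ⟨U, hU, hXY.trans hle⟩
      sup := by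
        rintro X ⟨U, hU, hle⟩ Y ⟨U', hU', hle'⟩
        refine ⟨U ⊔ U', h.1.sup _ hU _ hU', sup_le ?_ ?_⟩
        · exact hle.trans (sup_le_sup_right le_sup_left _)
        · exact hle'.trans (sup_le_sup_right le_sup_right _) }
  exact h.2 h1 (fun X hX => ⟨X, hX, le_sup_left⟩) ⟨⊥, h.1.bot_mem, le_sup_right⟩

/-- Two injective maps with images of the same codimension differ by an automorphism. -/
theorem ext_equiv {P : Type w} [AddCommGroup P] [Module F P] (f f' : P →ₗ[F] V)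
    (hf : Function.Injective f) (hf' : Function.Injective f')
    (h : Module.rank F (V ⧸ LinearMap.range f) = Module.rank F (V ⧸ LinearMap.range f')) :
    ∃ s : V ≃ₗ[F] V, ∀ p, s (f p) = f' p := by
  obtain ⟨C, hC⟩ := Submodule.exists_isCompl (LinearMap.range f)
  obtain ⟨C', hC'⟩ := Submodule.exists_isCompl (LinearMap.range f')
  have h1 : Module.rank F C = Module.rank F C' := by
    rw [← (Submodule.quotientEquivOfIsCompl _ _ hC).rank_eq,
      ← (Submodule.quotientEquivOfIsCompl _ _ hC').rank_eq, h]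
  obtain ⟨φ⟩ := nonempty_linearEquiv_of_rank_eq h1
  let ef := LinearEquiv.ofInjective f hf
  let ef' := LinearEquiv.ofInjective f' hf'
  let e := Submodule.prodEquivOfIsCompl _ _ hC
  let e' := Submodule.prodEquivOfIsCompl _ _ hC'
  refine ⟨e.symm ≪≫ₗ (LinearEquiv.prodCongr (ef.symm ≪≫ₗ ef') φ) ≪≫ₗ e', fun p => ?_⟩
  have h2 : e.symm (f p) = (ef p, 0) := by
    rw [LinearEquiv.symm_apply_eq]
    simp [e, ef]
  simp only [LinearEquiv.trans_apply, h2]
  simp [e', ef']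

/-- Two surjective maps with kernels of the same dimension differ by an automorphism. -/
theorem lift_equiv {Q : Type w} [AddCommGroup Q] [Module F Q] (f f' : V →ₗ[F] Q)
    (hf : Function.Surjective f) (hf' : Function.Surjective f')
    (h : Module.rank F (LinearMap.ker f) = Module.rank F (LinearMap.ker f')) :
    ∃ s : V ≃ₗ[F] V, ∀ p, f' (s p) = f p := by
  obtain ⟨C, hC⟩ := Submodule.exists_isCompl (LinearMap.ker f)
  obtain ⟨C', hC'⟩ := Submodule.exists_isCompl (LinearMap.ker f')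
  obtain ⟨φ⟩ := nonempty_linearEquiv_of_rank_eq h
  let q : C ≃ₗ[F] Q := (Submodule.quotientEquivOfIsCompl _ _ hC).symm ≪≫ₗ
    f.quotKerEquivOfSurjective hf
  let q' : C' ≃ₗ[F] Q := (Submodule.quotientEquivOfIsCompl _ _ hC').symm ≪≫ₗ
    f'.quotKerEquivOfSurjective hf'
  have hq : ∀ c, q c = f c := by
    intro c
    simp [q]
  have hq' : ∀ c, q' c = f' c := by
    intro c
    simp [q']
  let e := Submodule.prodEquivOfIsCompl _ _ hC
  let e' := Submodule.prodEquivOfIsCompl _ _ hC'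
  refine ⟨e.symm ≪≫ₗ (LinearEquiv.prodCongr φ (q ≪≫ₗ q'.symm)) ≪≫ₗ e', fun p => ?_⟩
  obtain ⟨⟨a, b⟩, rfl⟩ := e.surjective p
  have h3 : f (e (a, b)) = f b := by
    have : e (a, b) = (a : V) + b := by simp [e]
    rw [this, map_add, LinearMap.mem_ker.1 a.2, zero_add]
  have h4 : ∀ a' b', f' (e' (a', b')) = f' b' := by
    intro a' b'
    have : e' (a', b') = (a' : V) + b' := by simp [e']
    rw [this, map_add, LinearMap.mem_ker.1 a'.2, zero_add]
  rw [h3]
  simp only [LinearEquiv.trans_apply, LinearEquiv.symm_apply_apply, LinearEquiv.prodCongr_apply]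
  rw [h4, ← hq', LinearEquiv.apply_symm_apply, hq]

theorem codim_of_disj {C W : Submodule F V} (h : Disjoint C W)
    (hC : Module.rank F C = Module.rank F V) : Module.rank F (V ⧸ W) = Module.rank F V := by
  apply le_antisymm (rank_quotient_le _)
  rw [← hC]
  have hinj : Function.Injective (W.mkQ ∘ₗ C.subtype) := by
    rw [← LinearMap.ker_eq_bot, LinearMap.ker_comp, Submodule.ker_mkQ]
    rw [eq_bot_iff]
    rintro ⟨x, hx⟩ hxW
    have : x ∈ C ⊓ W := ⟨hx, hxW⟩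
    rw [h.eq_bot] at this
    simpa using this
  exact LinearMap.rank_le_of_injective _ hinj

/-- A space of infinite dimension contains two independent subspaces of the same dimension. -/
theorem split (U : Submodule F V) (hU : ℵ₀ ≤ Module.rank F U) :
    ∃ C₁ C₂ : Submodule F V, C₁ ≤ U ∧ C₂ ≤ U ∧ Disjoint C₁ C₂ ∧
      Module.rank F C₁ = Module.rank F U ∧ Module.rank F C₂ = Module.rank F U := by
  have h1 : Module.rank F (U × U) = Module.rank F U := by
    rw [rank_prod', Cardinal.add_eq_self hU]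
  obtain ⟨e⟩ := nonempty_linearEquiv_of_rank_eq h1
  let f₁ : U →ₗ[F] V := U.subtype ∘ₗ (e : (U × U) →ₗ[F] U) ∘ₗ LinearMap.inl F U U
  let f₂ : U →ₗ[F] V := U.subtype ∘ₗ (e : (U × U) →ₗ[F] U) ∘ₗ LinearMap.inr F U U
  have hf₁ : Function.Injective f₁ :=
    U.injective_subtype.comp (e.injective.comp LinearMap.inl_injective)
  have hf₂ : Function.Injective f₂ :=
    U.injective_subtype.comp (e.injective.comp LinearMap.inr_injective)
  refine ⟨LinearMap.range f₁, LinearMap.range f₂, ?_, ?_, ?_, ?_, ?_⟩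
  · rintro _ ⟨x, rfl⟩
    exact (e (x, 0)).2
  · rintro _ ⟨x, rfl⟩
    exact (e (0, x)).2
  · rw [Submodule.disjoint_def]
    rintro _ ⟨x, rfl⟩ ⟨y, hy⟩
    have h2 : e (0, y) = e (x, 0) := Subtype.ext hy
    have h3 := e.injective h2
    simp only [Prod.mk.injEq] at h3
    rw [← h3.1]
    simp
  · exact (LinearEquiv.ofInjective f₁ hf₁).rank_eq.symm
  · exact (LinearEquiv.ofInjective f₂ hf₂).rank_eq.symm

end Pool.Agent.R711.Filt
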