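import Mathlib

/-!
A modular lattice of finite length which is residually finite is finite.
-/

set_option autoImplicit false

namespace Pool.Agent.R711.Lat

theorem finite_of_residual {L : Type*} [Lattice L] [IsModularLattice L] [WellFoundedLT L]
    [WellFoundedGT L] {ι : Type*} {P : ι → Type*} [∀ i, Lattice (P i)] [∀ i, Finite (P i)]
    (π : ∀ i, LatticeHom L (P i)) (hπ : ∀ a b, (∀ i, π i a = π i b) → a = b) : Finite L := by
  classical
  rcases isEmpty_or_nonempty L with hL | hL
  · infer_instance
  obtain ⟨a, ha, n, hn, hc⟩ := exists_covBy_seq_of_wellFoundedLT_wellFoundedGT L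
  have h1 : ∀ i : Fin n, ∃ k, π k (a i) ≠ π k (a (i + 1)) := by
    intro i
    by_contra h
    push Not at h
    exact (hc i i.2).lt.ne (hπ _ _ h)
  choose k hk using h1
  refine Finite.of_injective (β := ∀ i : Fin n, P (k i)) (fun c i => π (k i) c) ?_
  have key : ∀ c d : L, c ≤ d → (∀ i, π (k i) c = π (k i) d) → c = d := by
    intro c d hcd h
    have h2 : ∀ m, m ≤ n → c ⊓ a m = d ⊓ a m := by
      intro m
      induction m with
      | zero =>
        intro _
        have h3 : ∀ x, a 0 ≤ x := fun x => (ha (inf_le_left : a 0 ⊓ x ≤ a 0)).trans inf_le_right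
        rw [inf_eq_right.2 (h3 c), inf_eq_right.2 (h3 d)]
      | succ m ih =>
        intro hm
        have hm' : m < n := hm
        have ih' := ih hm'.le
        have hcov := hc m hm'
        apply le_antisymm (inf_le_inf_right _ hcd)
        rcases hcov.eq_or_eq (c := (d ⊓ a (m + 1)) ⊔ a m) le_sup_right
          (sup_le inf_le_right hcov.le) with h4 | h4
        · have h5 : d ⊓ a (m + 1) ≤ a m := by
            rw [← h4]; exact le_sup_left
          have h6 : d ⊓ a (m + 1) ≤ d ⊓ a m := le_inf inf_le_left h5
          rw [← ih'] at h6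
          exact h6.trans (inf_le_inf_left _ hcov.le)
        · have h7 : (c ⊓ a (m + 1)) ⊔ a m = a (m + 1) := by
            rcases hcov.eq_or_eq (c := (c ⊓ a (m + 1)) ⊔ a m) le_sup_right
              (sup_le inf_le_right hcov.le) with h8 | h8
            · exfalso
              have h9 := congrArg (π (k ⟨m, hm'⟩)) h4
              have h10 := congrArg (π (k ⟨m, hm'⟩)) h8
              rw [map_sup, map_inf] at h9 h10
              rw [h ⟨m, hm'⟩, h9] at h10
              exact hk ⟨m, hm'⟩ h10.symm
            · exact h8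
          calc d ⊓ a (m + 1) = (d ⊓ a (m + 1)) ⊓ ((c ⊓ a (m + 1)) ⊔ a m) := by
                rw [h7, inf_assoc, inf_idem]
            _ = (c ⊓ a (m + 1)) ⊔ (a m ⊓ (d ⊓ a (m + 1))) := by
                rw [inf_comm, sup_inf_assoc_of_le _ (inf_le_inf_right _ hcd)]
            _ ≤ c ⊓ a (m + 1) := by
                apply sup_le le_rfl
                have : a m ⊓ (d ⊓ a (m + 1)) ≤ d ⊓ a m :=
                  le_inf (inf_le_right.trans inf_le_left) inf_le_left
                rw [← ih'] at this
                exact this.trans (inf_le_inf_left _ hcov.le)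
    have h3 := h2 n le_rfl
    have h4 : ∀ x, x ≤ a n := fun x => le_sup_right.trans (hn (le_sup_left : a n ≤ a n ⊔ x))
    rwa [inf_eq_left.2 (h4 c), inf_eq_left.2 (h4 d)] at h3
  intro c d hcd
  have h5 : ∀ i, π (k i) c = π (k i) d := fun i => congrFun hcd i
  have h6 : c ⊓ d = c := key _ _ inf_le_left (fun i => by rw [map_inf, h5 i, inf_idem])
  have h7 : c ⊓ d = d := key _ _ inf_le_right (fun i => by rw [map_inf, h5 i, inf_idem])
  rw [← h6, h7]

end Pool.Agent.R711.Lat
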