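import Pool.Agent.R711.Fourier
import Pool.Agent.R711.Lat

/-!
The lattice of families stable under surjections acting in both ways is finite for
finite abelian groups of coprime order.
-/

set_option autoImplicit false

namespace Pool.Agent.R711.Fourier

open Pool.Agent.R711.Words Pool.Agent.R711.Core

theorem finite_hom (O B : Type*) [CommRing O] [Module.Finite ℤ O] [AddCommGroup B] [Finite B] :
    Finite (O →+ B) := by
  classical
  obtain ⟨s, hs⟩ := Module.Finite.fg_top (R := ℤ) (M := O)
  refine Finite.of_injective (β := s → B) (fun f x => f x) ?_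
  intro f g hfg
  have h : f.toIntLinearMap = g.toIntLinearMap := by
    refine LinearMap.ext_on hs ?_
    intro x hx
    exact congrFun hfg ⟨x, hx⟩
  ext x
  exact DFunLike.congr_fun h x

variable {A B : Type*} [AddCommGroup A] [AddCommGroup B]

theorem fam_modular : IsModularLattice (Fam A B) := by
  refine ⟨fun {x} y {z} hxz => ?_⟩
  intro k
  have h : ((x ⊔ y) ⊓ z).1 k = (x.1 k ⊔ y.1 k) ⊓ z.1 k := rfl
  have h' : (x ⊔ y ⊓ z).1 k = x.1 k ⊔ y.1 k ⊓ z.1 k := rfl
  have hxz' : x.1 k ≤ z.1 k := hxz k
  change ((x ⊔ y) ⊓ z).1 k ≤ (x ⊔ y ⊓ z).1 k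
  rw [h, h']
  exact IsModularLattice.sup_inf_le_assoc_of_le _ hxz'

theorem fam_dcc [Finite A] [Finite B] : WellFoundedLT (Fam A B) := by
  have h := pull_dcc (X := A) (M := B)
  let F : Fam A B → {K : ∀ k, AddSubgroup ((Fin k → A) → B) // PullStable K} :=
    fun C => ⟨C.1, fun l k φ h H f hf => (C.2 l k φ H.surj).2 f hf⟩
  have hF : StrictMono F := fun C D hCD => hCD
  exact hF.wellFoundedLT

theorem fam_acc [Finite A] [Finite B] (hco : Nat.Coprime (Nat.card A) (Nat.card B)) :
    WellFoundedGT (Fam A B) := by
  classical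
  obtain ⟨O, _, lam, hlam, hfin, hfin', horth⟩ := Roots.exists_ring A
  have := Fintype.ofFinite (Multiplicative A →* Oˣ)
  have hO := finite_hom O B
  have h := push_acc (X := (Multiplicative A →* Oˣ)) (M := (O →+ B))
  have hinv : ∃ m : ℕ, ∀ b : B, (m * Nat.card A) • b = b := by
    rcases Nat.lt_or_ge 1 (Nat.card B) with hB | hB
    · obtain ⟨m, -, hm⟩ := Nat.exists_mul_mod_eq_one_of_coprime hco hB
      refine ⟨m, fun b => ?_⟩
      have h1 : m * Nat.card A = Nat.card B * (m * Nat.card A / Nat.card B) + 1 := by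
        rw [mul_comm m]
        conv_lhs => rw [← Nat.div_add_mod (Nat.card A * m) (Nat.card B), hm]
      rw [h1, add_smul, one_smul, mul_comm, mul_smul]
      have h2 : Nat.card B • b = 0 := by
        have := Fintype.ofFinite B
        rw [Nat.card_eq_fintype_card]
        exact card_nsmul_eq_zero
      rw [h2, smul_zero, zero_add]
    · refine ⟨0, fun b => ?_⟩
      have h1 : Subsingleton B := Finite.card_le_one_iff_subsingleton.1 hB
      exact Subsingleton.elim _ _
  let F : Fam A B → {K : ∀ k, AddSubgroup ((Fin k → (Multiplicative A →* Oˣ)) → (O →+ B)) //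
      PushStable K} :=
    fun C => ⟨hat C.1, hat_pushStable C.1 fun l k φ hφ f hf => (C.2 l k φ hφ).1 f hf⟩
  have hmono : Monotone F := by
    intro C D hCD k c hc y
    exact hCD k (hc y)
  have hF : StrictMono F := by
    intro C D hCD
    refine lt_of_le_not_ge (hmono hCD.le) fun hle => ?_
    apply not_le_of_gt hCD
    intro k
    exact le_of_hat_le lam hlam ((horth 0).1 rfl) (fun b hb => (horth b).2 hb) hinv C.1 D.1 k
      (hle k)
  exact hF.wellFoundedGT

theorem fam_finite [Finite A] [Finite B] (hco : Nat.Coprime (Nat.card A) (Nat.card B)) :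
    Finite (Fam A B) := by
  have h1 := fam_dcc (A := A) (B := B)
  have h2 := fam_acc hco
  have h3 := fam_modular (A := A) (B := B)
  refine Lat.finite_of_residual (ι := ℕ) (P := fun k => AddSubgroup ((Fin k → A) → B))
    (fun k => { toFun := fun C => C.1 k
                map_sup' := fun _ _ => rfl
                map_inf' := fun _ _ => rfl }) ?_
  intro C D h
  exact Subtype.ext (funext h)

end Pool.Agent.R711.Fourier
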