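import Mathlib

/-!
A ring of integers with enough roots of unity for a finite abelian group.
-/

set_option autoImplicit false

namespace Pool.Agent.R711.Roots

open Polynomial

theorem exists_ring (A : Type*) [AddCommGroup A] [Finite A] :
    ∃ (O : Type) (_ : CommRing O) (lam : O →+ ℤ), lam 1 = 1 ∧ Module.Finite ℤ O ∧
      Finite (Multiplicative A →* Oˣ) ∧
      ∀ [Fintype (Multiplicative A →* Oˣ)] (b : A),
        (b = 0 → ∑ χ : Multiplicative A →* Oˣ, (χ (Multiplicative.ofAdd b) : O) = Nat.card A) ∧
        (b ≠ 0 → ∑ χ : Multiplicative A →* Oˣ, (χ (Multiplicative.ofAdd b) : O) = 0) := by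
  classical
  let e := Monoid.exponent (Multiplicative A)
  have he : 0 < e := Nat.pos_of_ne_zero Monoid.exponent_ne_zero_of_finite
  have hne : NeZero e := ⟨he.ne'⟩
  let g : ℤ[X] := cyclotomic e ℤ
  have hg : g.Monic := cyclotomic.monic e ℤ
  have hprime : Prime g := (cyclotomic.irreducible he).prime
  have hdom : IsDomain (AdjoinRoot g) := AdjoinRoot.isDomain_of_prime hprime
  have hdeg : 0 < g.degree := degree_cyclotomic_pos e ℤ he
  have hinj : Function.Injective (algebraMap ℤ (AdjoinRoot g)) := by
    rw [AdjoinRoot.algebraMap_eq]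
    exact AdjoinRoot.of.injective_of_degree_ne_zero hdeg.ne'
  have hchar : CharZero (AdjoinRoot g) := by
    refine ⟨fun a b hab => ?_⟩
    have : algebraMap ℤ (AdjoinRoot g) a = algebraMap ℤ (AdjoinRoot g) b := by
      simpa using hab
    exact_mod_cast hinj this
  have hNZ : NeZero ((e : ℕ) : AdjoinRoot g) := ⟨by exact_mod_cast he.ne'⟩
  have hroot : IsRoot (cyclotomic e (AdjoinRoot g)) (AdjoinRoot.root g) := by
    have := AdjoinRoot.isRoot_root g
    rwa [← AdjoinRoot.algebraMap_eq, map_cyclotomic] at this
  have hprim : IsPrimitiveRoot (AdjoinRoot.root g) e := isRoot_cyclotomic_iff.1 hroot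
  have henough : HasEnoughRootsOfUnity (AdjoinRoot g) (Monoid.exponent (Multiplicative A)) :=
    { prim := ⟨_, hprim⟩
      cyc := rootsOfUnity.isCyclic _ _ }
  refine ⟨AdjoinRoot g, inferInstance,
    { toFun := fun x => (AdjoinRoot.modByMonicHom hg x).coeff 0
      map_zero' := by simp
      map_add' := fun x y => by simp }, ?_, hg.finite_adjoinRoot, ?_, ?_⟩
  · simp only [AddMonoidHom.coe_mk, ZeroHom.coe_mk]
    have : (1 : AdjoinRoot g) = AdjoinRoot.mk g 1 := (map_one _).symm
    rw [this, AdjoinRoot.modByMonicHom_mk]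
    rw [(modByMonic_eq_self_iff hg).2]
    · simp
    · rw [degree_one]
      exact hdeg
  · have h1 := CommGroup.card_monoidHom_of_hasEnoughRootsOfUnity (Multiplicative A) (AdjoinRoot g)
    apply Nat.finite_of_card_ne_zero
    rw [h1]
    exact Nat.card_pos.ne'
  · intro hF b
    refine ⟨?_, ?_⟩
    · rintro rfl
      simp only [ofAdd_zero, map_one, Units.val_one, Finset.sum_const, Finset.card_univ,
        nsmul_eq_mul, mul_one]
      rw [← Nat.card_eq_fintype_card,
        CommGroup.card_monoidHom_of_hasEnoughRootsOfUnity (Multiplicative A) (AdjoinRoot g)]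
      rfl
    · intro hb
      obtain ⟨φ, hφ⟩ := CommGroup.exists_apply_ne_one_of_hasEnoughRootsOfUnity (Multiplicative A)
        (AdjoinRoot g) (a := Multiplicative.ofAdd b) (by simpa using hb)
      let ev : (Multiplicative A →* (AdjoinRoot g)ˣ) →* AdjoinRoot g :=
        { toFun := fun χ => (χ (Multiplicative.ofAdd b) : AdjoinRoot g)
          map_one' := by simp
          map_mul' := fun x y => by simp }
      have h2 := sum_hom_units_eq_zero ev (by
        intro h
        apply hφ
        have h3 := DFunLike.congr_fun h φ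
        simp only [ev, MonoidHom.coe_mk, OneHom.coe_mk, MonoidHom.one_apply] at h3
        exact Units.ext h3)
      exact h2

end Pool.Agent.R711.Roots
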