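import Pool.Agent.R711.Core
import Pool.Agent.R711.Roots

/-!
Fourier transform of families of functions on powers of a finite abelian group.
-/

set_option autoImplicit false

namespace Pool.Agent.R711.Fourier

open Pool.Agent.R711.Words Pool.Agent.R711.Core

/-- Sums over the fibres of `φ`. -/
noncomputable def fsum {A : Type*} [AddCommGroup A] {l k : ℕ} (φ : Fin l → Fin k) (a : Fin l → A)
    (i : Fin k) : A := ∑ j, if φ j = i then a j else 0

section Chi

variable {A : Type*} [AddCommGroup A] {O : Type*} [CommRing O]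

/-- The character of `A ^ k` given by a word in the characters. -/
noncomputable def chi {k : ℕ} (ψ : Fin k → (Multiplicative A →* Oˣ)) (a : Fin k → A) : O :=
  ∏ i, (ψ i (Multiplicative.ofAdd (a i)) : O)

theorem chi_add {k : ℕ} (ψ : Fin k → (Multiplicative A →* Oˣ)) (a b : Fin k → A) :
    chi ψ (a + b) = chi ψ a * chi ψ b := by
  unfold chi
  rw [← Finset.prod_mul_distrib]
  refine Finset.prod_congr rfl fun i _ => ?_
  simp

theorem chi_comp {l k : ℕ} (φ : Fin l → Fin k) (ψ : Fin k → (Multiplicative A →* Oˣ))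
    (a : Fin l → A) : chi (ψ ∘ φ) a = chi ψ (fsum φ a) := by
  unfold chi fsum
  have h1 : ∀ i, (ψ i (Multiplicative.ofAdd (∑ j, if φ j = i then a j else 0)) : O)
      = ∏ j, (ψ i (Multiplicative.ofAdd (if φ j = i then a j else 0)) : O) := by
    intro i
    rw [ofAdd_sum, map_prod, Units.coe_prod]
  simp_rw [h1]
  rw [Finset.prod_comm]
  refine Finset.prod_congr rfl fun j _ => ?_
  rw [Finset.prod_eq_single (φ j)]
  · simp
  · intro i _ hi
    rw [if_neg hi.symm]
    simp
  · simp

variable [Fintype (Multiplicative A →* Oˣ)]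

theorem sum_chi (h0 : ∑ χ : Multiplicative A →* Oˣ, (χ (Multiplicative.ofAdd 0) : O) = Nat.card A)
    (h1 : ∀ b : A, b ≠ 0 → ∑ χ : Multiplicative A →* Oˣ, (χ (Multiplicative.ofAdd b) : O) = 0)
    {k : ℕ} (a : Fin k → A) :
    (a = 0 → ∑ ψ : Fin k → (Multiplicative A →* Oˣ), chi ψ a = (Nat.card A : O) ^ k) ∧
    (a ≠ 0 → ∑ ψ : Fin k → (Multiplicative A →* Oˣ), chi ψ a = 0) := by
  classical
  have key : ∑ ψ : Fin k → (Multiplicative A →* Oˣ), chi ψ a
      = ∏ i, ∑ χ : Multiplicative A →* Oˣ, (χ (Multiplicative.ofAdd (a i)) : O) := by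
    rw [Finset.prod_univ_sum, Fintype.piFinset_univ]
    rfl
  constructor
  · rintro rfl
    rw [key]
    simp only [Pi.zero_apply]
    rw [h0]
    simp
  · intro ha
    rw [key]
    obtain ⟨i, hi⟩ : ∃ i, a i ≠ 0 := by
      by_contra h
      push Not at h
      exact ha (funext h)
    exact Finset.prod_eq_zero (Finset.mem_univ i) (h1 _ hi)

end Chi

section Act

variable {B : Type*} [AddCommGroup B] {O : Type*} [CommRing O]

/-- The action of `O` on `O →+ B`. -/
def act (x : O) (g : O →+ B) : O →+ B := g.comp (AddMonoidHom.mulLeft x)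

@[simp] theorem act_apply (x : O) (g : O →+ B) (y : O) : act x g y = g (x * y) := rfl

theorem act_zero (x : O) : act x (0 : O →+ B) = 0 := by ext y; simp

theorem act_mul (x y : O) (g : O →+ B) : act x (act y g) = act (x * y) g := by
  ext z
  simp only [act_apply]
  congr 1
  ring

theorem act_sum_right {ι : Type*} (s : Finset ι) (x : O) (g : ι → (O →+ B)) :
    act x (∑ i ∈ s, g i) = ∑ i ∈ s, act x (g i) := by
  ext y
  simp [AddMonoidHom.finsetSum_apply]

theorem act_sum_left {ι : Type*} (s : Finset ι) (x : ι → O) (g : O →+ B) :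
    act (∑ i ∈ s, x i) g = ∑ i ∈ s, act (x i) g := by
  ext y
  simp [AddMonoidHom.finsetSum_apply, Finset.sum_mul]

theorem act_nsmul (n : ℕ) (x : O) (g : O →+ B) : act x (n • g) = n • act x g := by
  ext y
  simp

theorem act_natCast (n : ℕ) (g : O →+ B) : act (n : O) g = n • g := by
  ext y
  simp [← nsmul_eq_mul]

end Act

section Main

variable {A B : Type*} [AddCommGroup A] [AddCommGroup B] {O : Type*} [CommRing O]
  [Fintype (Multiplicative A →* Oˣ)]

/-- Fourier synthesis. -/
noncomputable def E {k : ℕ} (c : (Fin k → (Multiplicative A →* Oˣ)) → (O →+ B)) (a : Fin k → A) :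
    O →+ B := ∑ ψ, act (chi ψ a) (c ψ)

theorem E_push {l k : ℕ} (φ : Fin l → Fin k)
    (c : (Fin k → (Multiplicative A →* Oˣ)) → (O →+ B)) (a : Fin l → A) :
    E (push φ c) a = E c (fsum φ a) := by
  classical
  unfold E push
  simp_rw [act_sum_right]
  rw [Finset.sum_comm]
  refine Finset.sum_congr rfl fun w _ => ?_
  rw [Finset.sum_eq_single (w ∘ φ)]
  · rw [if_pos rfl, chi_comp]
  · intro u _ hu
    rw [if_neg (fun h => hu h.symm), act_zero]
  · simp

theorem E_add {k : ℕ} (c d : (Fin k → (Multiplicative A →* Oˣ)) → (O →+ B)) (a : Fin k → A) :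
    E (c + d) a = E c a + E d a := by
  unfold E
  rw [← Finset.sum_add_distrib]
  refine Finset.sum_congr rfl fun w _ => ?_
  ext y
  simp

theorem E_zero {k : ℕ} (a : Fin k → A) :
    E (0 : (Fin k → (Multiplicative A →* Oˣ)) → (O →+ B)) a = 0 := by
  unfold E
  exact Finset.sum_eq_zero fun w _ => act_zero _

theorem E_neg {k : ℕ} (c : (Fin k → (Multiplicative A →* Oˣ)) → (O →+ B)) (a : Fin k → A) :
    E (-c) a = -E c a := by
  have := E_add c (-c) a
  rw [add_neg_cancel, E_zero] at this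
  exact (neg_eq_of_add_eq_zero_right this.symm).symm

theorem E_surj [Finite A]
    (h0 : ∑ χ : Multiplicative A →* Oˣ, (χ (Multiplicative.ofAdd 0) : O) = Nat.card A)
    (h1 : ∀ b : A, b ≠ 0 → ∑ χ : Multiplicative A →* Oˣ, (χ (Multiplicative.ofAdd b) : O) = 0)
    (hinv : ∃ m : ℕ, ∀ b : B, (m * Nat.card A) • b = b)
    {k : ℕ} (F : (Fin k → A) → (O →+ B)) :
    ∃ c : (Fin k → (Multiplicative A →* Oˣ)) → (O →+ B), ∀ a, E c a = F a := by
  classical
  have := Fintype.ofFinite A
  obtain ⟨m, hm⟩ := hinv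
  refine ⟨fun ψ => m ^ k • ∑ a' : Fin k → A, act (chi ψ (-a')) (F a'), fun a => ?_⟩
  unfold E
  simp_rw [act_nsmul, act_sum_right, act_mul, ← chi_add]
  rw [← Finset.smul_sum, Finset.sum_comm]
  simp_rw [← act_sum_left]
  rw [Finset.sum_eq_single a]
  · have h2 := (sum_chi h0 h1 (a + -a)).1 (by simp)
    rw [h2]
    have h3 : ((Nat.card A : ℕ) : O) ^ k = ((Nat.card A ^ k : ℕ) : O) := by push_cast; rfl
    rw [h3, act_natCast, smul_smul, ← mul_pow]
    have h4 : ∀ n : ℕ, (m * Nat.card A) ^ n • F a = F a := by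
      intro n
      induction n with
      | zero => simp
      | succ n ih =>
        rw [pow_succ, mul_smul]
        have h5 : (m * Nat.card A) • F a = F a := by
          ext y
          rw [AddMonoidHom.nsmul_apply, hm]
        rw [h5, ih]
    exact h4 k
  · intro a' _ ha'
    have h2 := (sum_chi h0 h1 (a + -a')).2 (by
      intro h
      apply ha'
      rw [← sub_eq_add_neg, sub_eq_zero] at h
      exact h.symm)
    rw [h2]
    ext y
    simp
  · simp

/-- The Fourier transform of a family. -/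
def hat (C : ∀ k, AddSubgroup ((Fin k → A) → B)) (k : ℕ) :
    AddSubgroup ((Fin k → (Multiplicative A →* Oˣ)) → (O →+ B)) where
  carrier := {c | ∀ y : O, (fun a => E c a y) ∈ C k}
  zero_mem' := by
    intro y
    simp only [E_zero]
    exact (C k).zero_mem
  add_mem' := by
    intro c d hc hd y
    simp only [E_add]
    exact (C k).add_mem (hc y) (hd y)
  neg_mem' := by
    intro c hc y
    simp only [E_neg]
    exact (C k).neg_mem (hc y)

theorem hat_pushStable (C : ∀ k, AddSubgroup ((Fin k → A) → B))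
    (hC : ∀ (l k : ℕ) (φ : Fin l → Fin k), Function.Surjective φ → ∀ f ∈ C k,
      (fun a => f (fsum φ a)) ∈ C l) :
    PushStable (hat (O := O) C) := by
  intro l k φ h H c hc y
  simp only [E_push]
  exact hC l k φ H.surj _ (hc y)

theorem le_of_hat_le [Finite A] (lam : O →+ ℤ) (hlam : lam 1 = 1)
    (h0 : ∑ χ : Multiplicative A →* Oˣ, (χ (Multiplicative.ofAdd 0) : O) = Nat.card A)
    (h1 : ∀ b : A, b ≠ 0 → ∑ χ : Multiplicative A →* Oˣ, (χ (Multiplicative.ofAdd b) : O) = 0)
    (hinv : ∃ m : ℕ, ∀ b : B, (m * Nat.card A) • b = b)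
    (C D : ∀ k, AddSubgroup ((Fin k → A) → B)) (k : ℕ)
    (h : hat (O := O) D k ≤ hat (O := O) C k) : D k ≤ C k := by
  intro f hf
  obtain ⟨c, hc⟩ := E_surj h0 h1 hinv
    (fun a => ((smulAddHom ℤ B).flip (f a)).comp lam : (Fin k → A) → (O →+ B))
  have h2 : c ∈ hat (O := O) D k := by
    intro y
    have h3 : (fun a => E c a y) = (lam y) • f := by
      funext a
      rw [hc]
      rfl
    rw [h3]
    exact (D k).zsmul_mem hf _
  have h4 := h h2 1
  have h5 : (fun a => E c a 1) = f := by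
    funext a
    rw [hc]
    simp [hlam]
  rwa [h5] at h4

end Main

/-- The families of subgroups of `A ^ k → B` stable under the surjections acting in both ways. -/
def Fam (A B : Type*) [AddCommGroup A] [AddCommGroup B] :
    Sublattice (∀ k, AddSubgroup ((Fin k → A) → B)) where
  carrier := {C | ∀ (l k : ℕ) (φ : Fin l → Fin k), Function.Surjective φ →
    (∀ f ∈ C k, (fun a => f (fsum φ a)) ∈ C l) ∧ (∀ f ∈ C l, pull φ f ∈ C k)}
  supClosed' := by
    intro C hC D hD l k φ hφ
    constructor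
    · intro f hf
      rw [Pi.sup_apply, AddSubgroup.mem_sup] at *
      obtain ⟨f1, h1, f2, h2, rfl⟩ := hf
      exact ⟨_, (hC l k φ hφ).1 f1 h1, _, (hD l k φ hφ).1 f2 h2, rfl⟩
    · intro f hf
      rw [Pi.sup_apply, AddSubgroup.mem_sup] at *
      obtain ⟨f1, h1, f2, h2, rfl⟩ := hf
      exact ⟨_, (hC l k φ hφ).2 f1 h1, _, (hD l k φ hφ).2 f2 h2, rfl⟩
  infClosed' := by
    intro C hC D hD l k φ hφ
    constructor
    · intro f hf
      rw [Pi.inf_apply, AddSubgroup.mem_inf] at *
      exact ⟨(hC l k φ hφ).1 f hf.1, (hD l k φ hφ).1 f hf.2⟩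
    · intro f hf
      rw [Pi.inf_apply, AddSubgroup.mem_inf] at *
      exact ⟨(hC l k φ hφ).2 f hf.1, (hD l k φ hφ).2 f hf.2⟩

end Pool.Agent.R711.Fourier
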