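import Pool.Agent.R537.LR.Stm

/-!
Project LR (helper537), piece FF: the straight-line program is feed-forward (helper711).
-/

set_option autoImplicit false

namespace Pool.Agent.NPC.R537LR

open Pool.Agent.NPC Pool.Agent.NPC.ER

namespace FFAux

/-- one gate at position `k` -/
def OKg (k : ℕ) (g : Gate) : Prop :=
  g.2.2.2.1 = k ∧ (g.1 = 1 → |g.2.2.2.2| ≤ 8) ∧ (2 ≤ g.1 → g.2.1 < k ∧ g.2.2.1 < k) ∧
    g.2.1 ≤ k ∧ g.2.2.1 ≤ k

/-- a segment of gates which starts at position `b` -/
def Seg : ℕ → List Gate → Prop
  | _, [] => True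
  | b, g :: G => OKg b g ∧ Seg (b + 1) G

theorem seg_append (G H : List Gate) : ∀ b, Seg b G → Seg (b + G.length) H → Seg b (G ++ H) := by
  induction G with
  | nil =>
    intro b _ h2
    simpa using h2
  | cons g G ih =>
    intro b h1 h2
    refine ⟨h1.1, ih (b + 1) h1.2 ?_⟩
    have e : b + 1 + G.length = b + (g :: G).length := by
      simp only [List.length_cons]
      ring
    rw [e]
    exact h2

theorem seg_get (G : List Gate) : ∀ b, Seg b G → ∀ k (hk : k < G.length), OKg (b + k) (G[k]) := by
  induction G with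
  | nil =>
    intro b _ k hk
    simp at hk
  | cons g G ih =>
    intro b h k hk
    cases k with
    | zero => simpa using h.1
    | succ k =>
      have h3 := ih (b + 1) h.2 k (by simpa using hk)
      have e : b + 1 + k = b + (k + 1) := by ring
      rw [e] at h3
      simpa using h3

theorem seg_of_get (G : List Gate) : ∀ b, (∀ k (hk : k < G.length), OKg (b + k) (G[k])) →
    Seg b G := by
  induction G with
  | nil =>
    intro b _
    trivial
  | cons g G ih =>
    intro b h
    refine ⟨?_, ih (b + 1) ?_⟩
    · have h0 := h 0 (by simp)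
      rw [Nat.add_zero] at h0
      exact h0
    · intro k hk
      have h3 := h (k + 1) (by simpa using hk)
      have e : b + 1 + k = b + (k + 1) := by ring
      rw [e]
      simpa using h3

theorem seg_map_range (n b : ℕ) (f : ℕ → Gate) (h : ∀ k < n, OKg (b + k) (f k)) :
    Seg b ((List.range n).map f) := by
  apply seg_of_get
  intro k hk
  simp only [List.length_map, List.length_range] at hk
  simpa using h k hk

theorem seg_flatMap {α : Type} (f : α × ℕ → List Gate) (b : ℕ) (l : List α) :
    ∀ i, (∀ p : α × ℕ, Seg (b + 6 * p.2) (f p) ∧ (f p).length = 6) →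
      Seg (b + 6 * i) ((l.zipIdx i).flatMap f) ∧ ((l.zipIdx i).flatMap f).length = 6 * l.length := by
  induction l with
  | nil =>
    intro i _
    exact ⟨trivial, by simp⟩
  | cons a l ih =>
    intro i h
    obtain ⟨h1, h2⟩ := ih (i + 1) h
    obtain ⟨h3, h4⟩ := h (a, i)
    rw [List.zipIdx_cons, List.flatMap_cons]
    constructor
    · apply seg_append _ _ _ h3
      rw [h4]
      have e : b + 6 * i + 6 = b + 6 * (i + 1) := by ring
      rw [e]
      exact h1
    · rw [List.length_append, h4, h2, List.length_cons]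
      ring

theorem pblk_length (V : List ℕ) (L : ℕ) (c : ER.Con) (b : ℕ) : (pblk V L c b).length = 6 := by
  cases c <;> rfl

theorem pblk_seg (V : List ℕ) (L : ℕ) (hL : V.length = L) (c : ER.Con) (b : ℕ)
    (hb : L + 3 ≤ b) : Seg b (pblk V L c b) := by
  have hV : ∀ i, V.idxOf i ≤ L := fun i => hL ▸ List.idxOf_le_length
  cases c with
  | one i =>
    have h1 := hV i
    refine ⟨?_, ?_, ?_, ?_, ?_, ?_, trivial⟩ <;>
    · unfold OKg
      simp only
      refine ⟨?_, ?_, ?_, ?_, ?_⟩ <;>
        first | exact True.intro | omega | (intro h; simp; done) | (intro h; constructor <;> omega)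
  | add i j k =>
    have h1 := hV i
    have h2 := hV j
    have h3 := hV k
    refine ⟨?_, ?_, ?_, ?_, ?_, ?_, trivial⟩ <;>
    · unfold OKg
      simp only
      refine ⟨?_, ?_, ?_, ?_, ?_⟩ <;>
        first | exact True.intro | omega | (intro h; simp; done) | (intro h; constructor <;> omega)
  | mul i j k =>
    have h1 := hV i
    have h2 := hV j
    have h3 := hV k
    refine ⟨?_, ?_, ?_, ?_, ?_, ?_, trivial⟩ <;>
    · unfold OKg
      simp only
      refine ⟨?_, ?_, ?_, ?_, ?_⟩ <;>
        first | exact True.intro | omega | (intro h; simp; done) | (intro h; constructor <;> omega)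

theorem tail_seg (L e K : ℕ) (h : L + 3 ≤ e) :
    Seg e (((1, 0, 0, e, 4) : Gate) ::
      ((List.range K).map (fun j => ((3, e + j, e + j, e + j + 1, 0) : Gate)) ++
      ([(3, e - 1, L, e + K + 1, 0), (2, e + K, e + K + 1, e + K + 2, 0)] : List Gate))) := by
  refine ⟨?_, ?_⟩
  · unfold OKg
    simp
  · apply seg_append
    · apply seg_map_range
      intro k _
      unfold OKg
      simp only
      refine ⟨?_, ?_, ?_, ?_, ?_⟩ <;>
        first | exact True.intro | omega | (intro h; constructor <;> omega)
    · rw [List.length_map, List.length_range]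
      refine ⟨?_, ?_, trivial⟩ <;>
      · unfold OKg
        simp only
        refine ⟨?_, ?_, ?_, ?_, ?_⟩ <;>
          first | exact True.intro | omega | (intro h; constructor <;> omega)

theorem all_seg (V : List ℕ) (L : ℕ) (hL : V.length = L) (T : List ER.Con) (K : ℕ) (G : List Gate)
    (e : ℕ) (he : e = L + 3 + 6 * T.length)
    (hG : G = (List.range L).map (fun k => ((0, 0, 0, k, 0) : Gate)) ++
      ([(1, 0, 0, L, -8), (1, 0, 0, L + 1, -1), (1, 0, 0, L + 2, 0)] ++
      (T.zipIdx.flatMap (fun p => pblk V L p.1 (L + 3 + 6 * p.2)) ++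
      ((1, 0, 0, e, 4) ::
      ((List.range K).map (fun j => ((3, e + j, e + j, e + j + 1, 0) : Gate)) ++
      [(3, e - 1, L, e + K + 1, 0), (2, e + K, e + K + 1, e + K + 2, 0)]))))) :
    Seg 0 G ∧ G.length = e + K + 3 := by
  have hf := seg_flatMap (fun p : ER.Con × ℕ => pblk V L p.1 (L + 3 + 6 * p.2))
    (L + 3) T 0 (fun p => ⟨pblk_seg V L hL p.1 _ (by omega), pblk_length _ _ _ _⟩)
  obtain ⟨hf1, hf2⟩ := hf
  rw [Nat.mul_zero, Nat.add_zero] at hf1
  constructor
  · rw [hG]
    apply seg_append
    · apply seg_map_range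
      intro k _
      unfold OKg
      simp
    · rw [List.length_map, List.length_range, Nat.zero_add]
      apply seg_append
      · refine ⟨?_, ?_, ?_, trivial⟩ <;>
        · unfold OKg
          simp
      · have e1 : L + ([(1, 0, 0, L, -8), (1, 0, 0, L + 1, -1), (1, 0, 0, L + 2, 0)] :
            List Gate).length = L + 3 := rfl
        rw [e1]
        apply seg_append _ _ _ hf1
        rw [hf2, ← he]
        exact tail_seg L e K (by omega)
  · rw [hG]
    simp only [List.length_append, List.length_map, List.length_range, List.length_cons,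
      List.length_nil, hf2]
    omega

theorem prog_seg (S : List ER.Con) : Seg 0 (prog S) ∧ (prog S).length = n1 S := by
  exact all_seg (svars (TS S)) (Ls S) (by unfold Ls; rfl) (TS S) (KS S) (prog S) (eS S)
    (by unfold eS; rfl) (by unfold prog; rfl)

end FFAux

open FFAux in
theorem t_FF : S_FF := by
  intro S
  obtain ⟨h1, h2⟩ := prog_seg S
  refine ⟨⟨h2, ?_⟩, ?_⟩
  · intro k hk
    have h3 := seg_get _ _ h1 k hk
    rw [Nat.zero_add] at h3
    exact ⟨h3.1, h3.2.1, h3.2.2.1⟩
  · intro g hg
    obtain ⟨k, hk, rfl⟩ := List.mem_iff_getElem.1 hg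
    have h3 := seg_get _ _ h1 k hk
    rw [Nat.zero_add] at h3
    obtain ⟨h4, _, _, h5, h6⟩ := h3
    rw [h2] at hk
    unfold GLt
    refine ⟨?_, ?_, ?_⟩
    · omega
    · omega
    · omega

end Pool.Agent.NPC.R537LR
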