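import Pool.Agent.R972.OP.StmE2

/-!
Project OP (MP_6d896a_gt), piece POBE (helper711): the sharp Poincare inequality for order polytopes
in Euclidean form.
-/

set_option autoImplicit false

namespace Pool.Agent.R711.POBE

open MeasureTheory Set Filter Topology
open scoped ENNReal InnerProductSpace
open Pool.Agent.W695.KH (Eu EV VV)
open Pool.Agent.R972.OP

theorem norm_sq_functional {n : ℕ} (φ : Eu (Fin n) →L[ℝ] ℝ) :
    ‖φ‖ ^ 2 = ∑ a, φ (EuclideanSpace.single a 1) ^ 2 := by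
  set y := (InnerProductSpace.toDual ℝ (Eu (Fin n))).symm φ with hy
  have h1 : ∀ x, φ x = ⟪y, x⟫_ℝ := fun x => by
    rw [hy, InnerProductSpace.toDual_symm_apply]
  have h2 : ‖φ‖ = ‖y‖ := by rw [hy, LinearIsometryEquiv.norm_map]
  rw [h2, EuclideanSpace.real_norm_sq_eq]
  refine Finset.sum_congr rfl fun a _ => ?_
  rw [h1, EuclideanSpace.inner_single_right]
  simp

/-- the linear equivalence -/
noncomputable def L (n : ℕ) : (Fin n → ℝ) ≃L[ℝ] Eu (Fin n) :=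
  (PiLp.continuousLinearEquiv 2 ℝ (fun _ : Fin n => ℝ)).symm

theorem L_apply (n : ℕ) (x : Fin n → ℝ) : L n x = WithLp.toLp 2 x := rfl

theorem sum_pd {n : ℕ} (f : Eu (Fin n) → ℝ) (x : Fin n → ℝ) :
    ∑ a, pd (f ∘ L n) a x ^ 2 = ‖fderiv ℝ f (WithLp.toLp 2 x)‖ ^ 2 := by
  rw [norm_sq_functional]
  refine Finset.sum_congr rfl fun a _ => ?_
  rw [pd, ContinuousLinearEquiv.comp_right_fderiv]
  rfl

theorem pobe (h1 : S_POB) (h2 : S_TR) : S_POBE := by
  intro n R _ f hf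
  let R' : Fin n → Fin n → Prop := fun a b => R a b ∧ a ≠ b
  have hOE : OE R = OE R' := by
    ext x
    constructor
    · rintro ⟨h3, h4⟩
      exact ⟨h3, fun i j hij => h4 i j hij.1⟩
    · rintro ⟨h3, h4⟩
      refine ⟨h3, fun i j hij => ?_⟩
      by_cases h : i = j
      · rw [h]
      · exact h4 i j ⟨hij, h⟩
  rw [hOE]
  obtain ⟨hv, hG⟩ := h2 n R'
  have hF : ContDiff ℝ 1 (f ∘ L n) := hf.comp (L n).contDiff
  have h3 := h1 n R' (fun a h => h.2 rfl) (f ∘ L n) hF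
  have e1 : ∫ x in OE R', f x = ∫ x in OPp R', (f ∘ L n) x := hG f
  have e2 : ∫ x in OE R', f x ^ 2 = ∫ x in OPp R', (f ∘ L n) x ^ 2 := hG fun x => f x ^ 2
  have e3 : ∫ x in OE R', ‖fderiv ℝ f x‖ ^ 2 = ∫ x in OPp R', ∑ a, pd (f ∘ L n) a x ^ 2 := by
    rw [hG fun x => ‖fderiv ℝ f x‖ ^ 2]
    simp only [sum_pd]
  rw [← hv, ← e1, ← e2, ← e3] at h3
  simp only [VV, EV]
  set v : ℝ := (volume (OE R')).toReal with hvdef
  have hv0 : 0 ≤ v := ENNReal.toReal_nonneg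
  rcases hv0.eq_or_lt with h0 | h0
  · rw [← h0]
    simp
  · have h4 : (∫ x in OE R', f x ^ 2) / v - ((∫ x in OE R', f x) / v) ^ 2 =
        (v * (∫ x in OE R', f x ^ 2) - (∫ x in OE R', f x) ^ 2) / v ^ 2 := by
      field_simp
    have h5 : 1 / Real.pi ^ 2 * ((∫ x in OE R', ‖fderiv ℝ f x‖ ^ 2) / v) =
        (v * (1 / Real.pi ^ 2 * ∫ x in OE R', ‖fderiv ℝ f x‖ ^ 2)) / v ^ 2 := by
      field_simp
    rw [h4, h5]
    exact div_le_div_of_nonneg_right h3 (by positivity)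

end Pool.Agent.R711.POBE
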