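import Pool.Agent.R497.TD.Defs

/-!
Project TD (MP_4d8f14_an), piece OSC (helper711): sums of a Lipschitz function with bounded primitive
along a slowly increasing convex sequence.
-/

set_option autoImplicit false

namespace Pool.Agent.R711.TDOSC

open MeasureTheory Filter Finset
open Pool.Agent.R497.TD

/-- summation by parts with nonincreasing nonnegative weights -/
theorem abel (w S : ℕ → ℝ) (C : ℝ) (H : ℕ) (hS0 : S 0 = 0) (hS : ∀ k, |S k| ≤ C)
    (hmono : ∀ r, r + 1 < H → w (r + 1) ≤ w r) (n : ℕ) (hn : n < H) :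
    |∑ r ∈ range (n + 1), w r * (S (r + 1) - S r) - w n * S (n + 1)| ≤ C * (w 0 - w n) := by
  induction n with
  | zero => simp [hS0]
  | succ n ih =>
    have h1 := ih (by omega)
    rw [sum_range_succ]
    have h2 : ∑ r ∈ range (n + 1), w r * (S (r + 1) - S r) + w (n + 1) * (S (n + 1 + 1) - S (n + 1)) -
        w (n + 1) * S (n + 1 + 1) = (∑ r ∈ range (n + 1), w r * (S (r + 1) - S r) - w n * S (n + 1)) +
          (w n - w (n + 1)) * S (n + 1) := by ring
    rw [h2]
    have h3 : |(w n - w (n + 1)) * S (n + 1)| ≤ (w n - w (n + 1)) * C := by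
      rw [abs_mul, abs_of_nonneg (sub_nonneg.2 (hmono n hn))]
      exact mul_le_mul_of_nonneg_left (hS _) (sub_nonneg.2 (hmono n hn))
    calc _ ≤ _ := abs_add_le _ _
      _ ≤ C * (w 0 - w n) + (w n - w (n + 1)) * C := add_le_add h1 h3
      _ = _ := by ring

theorem t_OSC : S_OSC := by
  intro G t C δ α β H hL hI hδ hα hD hm
  have hC : 0 ≤ C := (abs_nonneg _).trans (hI 0 0)
  have hGc : Continuous G := by
    refine (LipschitzWith.of_dist_le_mul (K := C.toNNReal) fun u v => ?_).continuous
    rw [Real.dist_eq, Real.dist_eq, Real.coe_toNNReal _ hC]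
    exact hL u v
  have hii : ∀ u v, IntervalIntegrable G volume u v := fun u v => hGc.intervalIntegrable u v
  have hδp : 0 < |δ| := abs_pos.2 hδ
  rcases Nat.eq_zero_or_pos H with rfl | hH
  · simp only [range_zero, sum_empty, abs_zero, Nat.cast_zero, mul_zero, zero_mul, add_zero]
    positivity
  have hDpos : ∀ r < H, 0 < t (r + 1) - t r := fun r hr => hα.trans_le (hD r hr).1
  let S : ℕ → ℝ := fun k => ∫ u in (δ * t 0)..(δ * t k), G u
  let w : ℕ → ℝ := fun r => 1 / (t (r + 1) - t r)
  have hS0 : S 0 = 0 := intervalIntegral.integral_same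
  have hS : ∀ k, |S k| ≤ C := fun k => hI _ _
  have hSd : ∀ r, S (r + 1) - S r = ∫ u in (δ * t r)..(δ * t (r + 1)), G u := fun r =>
    intervalIntegral.integral_interval_sub_left (hii _ _) (hii _ _)
  have hwm : ∀ r, r + 1 < H → w (r + 1) ≤ w r := fun r hr =>
    one_div_le_one_div_of_le (hDpos r (by omega)) (hm r hr)
  -- the main term
  have hmain : |∑ r ∈ range H, w r * (S (r + 1) - S r)| ≤ C / α := by
    obtain ⟨n, rfl⟩ : ∃ n, H = n + 1 := ⟨H - 1, by omega⟩
    have h1 := abel w S C (n + 1) hS0 hS hwm n (by omega)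
    have h2 : |w n * S (n + 1)| ≤ w n * C := by
      have h3 : 0 ≤ w n := (one_div_pos.2 (hDpos n (by omega))).le
      rw [abs_mul, abs_of_nonneg h3]
      exact mul_le_mul_of_nonneg_left (hS _) h3
    have h4 : w 0 ≤ 1 / α := one_div_le_one_div_of_le hα (hD 0 (by omega)).1
    have h5 : |∑ r ∈ range (n + 1), w r * (S (r + 1) - S r)| ≤
        |∑ r ∈ range (n + 1), w r * (S (r + 1) - S r) - w n * S (n + 1)| + |w n * S (n + 1)| := by
      have h6 := abs_add_le (∑ r ∈ range (n + 1), w r * (S (r + 1) - S r) - w n * S (n + 1))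
        (w n * S (n + 1))
      rwa [sub_add_cancel] at h6
    calc _ ≤ _ := h5
      _ ≤ C * (w 0 - w n) + w n * C := add_le_add h1 h2
      _ = C * w 0 := by ring
      _ ≤ C * (1 / α) := mul_le_mul_of_nonneg_left h4 hC
      _ = C / α := by ring
  -- the errors
  have herr : ∀ r ∈ range H, |G (δ * t r) - 1 / δ * (w r * (S (r + 1) - S r))| ≤ C * |δ| * β := by
    intro r hr
    have hr' := mem_range.1 hr
    have hDr := hDpos r hr'
    have h1 : ‖(∫ u in (δ * t r)..(δ * t (r + 1)), (G u - G (δ * t r)))‖ ≤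
        C * (|δ| * (t (r + 1) - t r)) * |δ * t (r + 1) - δ * t r| := by
      refine intervalIntegral.norm_integral_le_of_norm_le_const fun u hu => ?_
      rw [Real.norm_eq_abs]
      refine (hL _ _).trans (mul_le_mul_of_nonneg_left ?_ hC)
      have h2 : |u - δ * t r| ≤ |δ * t (r + 1) - δ * t r| := by
        rw [Set.mem_uIoc] at hu
        rcases hu with ⟨h3, h4⟩ | ⟨h3, h4⟩
        · rw [abs_of_nonneg (by linarith), abs_of_nonneg (by linarith)]
          linarith
        · rw [abs_of_nonpos (by linarith), abs_of_nonpos (by linarith)]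
          linarith
      rw [← mul_sub, abs_mul, abs_of_pos hDr] at h2
      exact h2
    have h3 : (∫ u in (δ * t r)..(δ * t (r + 1)), (G u - G (δ * t r))) =
        (S (r + 1) - S r) - (δ * t (r + 1) - δ * t r) * G (δ * t r) := by
      rw [intervalIntegral.integral_sub (hii _ _) intervalIntegrable_const,
        intervalIntegral.integral_const, smul_eq_mul, hSd]
    rw [Real.norm_eq_abs, h3, ← mul_sub, abs_mul, abs_of_pos hDr] at h1
    have h4 : G (δ * t r) - 1 / δ * (w r * (S (r + 1) - S r)) =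
        -(((S (r + 1) - S r) - (δ * (t (r + 1) - t r)) * G (δ * t r)) /
          (δ * (t (r + 1) - t r))) := by
      simp only [w]
      field_simp
      ring
    rw [h4, abs_neg, abs_div, abs_mul, abs_of_pos hDr, div_le_iff₀ (by positivity)]
    refine h1.trans ?_
    have h5 : 0 ≤ |δ| * (t (r + 1) - t r) := by positivity
    refine mul_le_mul_of_nonneg_right ?_ h5
    rw [mul_assoc]
    refine mul_le_mul_of_nonneg_left ?_ hC
    exact mul_le_mul_of_nonneg_left (hD r hr').2 hδp.le
  have h1 : ∑ r ∈ range H, G (δ * t r) = 1 / δ * ∑ r ∈ range H, w r * (S (r + 1) - S r) +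
      ∑ r ∈ range H, (G (δ * t r) - 1 / δ * (w r * (S (r + 1) - S r))) := by
    rw [sum_sub_distrib, mul_sum]
    ring
  rw [h1]
  refine (abs_add_le _ _).trans (add_le_add ?_ ?_)
  · rw [abs_mul, abs_div, abs_one]
    calc 1 / |δ| * _ ≤ 1 / |δ| * (C / α) := mul_le_mul_of_nonneg_left hmain (by positivity)
      _ = C / (|δ| * α) := by field_simp
  · refine (abs_sum_le_sum_abs _ _).trans ((sum_le_sum herr).trans ?_)
    rw [sum_const, card_range, nsmul_eq_mul]
    exact (by ring : (H : ℝ) * (C * |δ| * β) = C * H * |δ| * β).le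

end Pool.Agent.R711.TDOSC
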