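import Pool.Agent.R537.TE.Stm

/-!
Project TE (MP_507a1e_gt), piece GLUE (helper711): the distance of the glue vectors of `A_m`.
-/

set_option autoImplicit false

namespace Pool.Agent.R711.TEGLUE

open Real
open Pool.Agent.R537.TE

theorem coord (m a : ℕ) (i : Fin (m + 1)) :
    (vec (fun _ : Fin m => -((a : ℝ) / (m + 1)))) i =
      (((if i = 0 then (a : ℤ) else 0 : ℤ)) : ℝ) - (a : ℝ) / (m + 1) := by
  have hN : (m : ℝ) + 1 ≠ 0 := by positivity
  refine Fin.cases ?_ (fun j => ?_) i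
  · have h : (vec (fun _ : Fin m => -((a : ℝ) / (m + 1)))) 0 =
        -∑ _i : Fin m, -((a : ℝ) / (m + 1)) := rfl
    rw [h, Finset.sum_const, Finset.card_univ, Fintype.card_fin, nsmul_eq_mul, if_pos rfl]
    push_cast
    field_simp
    ring
  · have h : (vec (fun _ : Fin m => -((a : ℝ) / (m + 1)))) j.succ = -((a : ℝ) / (m + 1)) := rfl
    rw [h, if_neg (Fin.succ_ne_zero j)]
    push_cast
    ring

theorem t_GLUE : S_GLUE := by
  intro m a ha1 ham
  have hN : (0 : ℝ) < (m : ℝ) + 1 := by positivity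
  have ham' : (a : ℝ) ≤ m := by exact_mod_cast ham
  set c : ℝ := (a : ℝ) * (m + 1 - a) / (m + 1) with hc
  have hc0 : 0 ≤ c := by
    rw [hc]
    refine div_nonneg (mul_nonneg (Nat.cast_nonneg a) ?_) hN.le
    linarith
  have hne : (LL m).Nonempty := ⟨0, fun _ => 0, fun i => by simp, by simp⟩
  have key : √c ≤ Metric.infDist (vec (fun _ : Fin m => -((a : ℝ) / (m + 1)))) (LL m) := by
    rw [Metric.le_infDist hne]
    rintro v ⟨k, hk, m', hm'⟩
    rw [EuclideanSpace.dist_eq]
    refine Real.sqrt_le_sqrt ?_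
    let q : Fin (m + 1) → ℤ := fun i => (if i = 0 then (a : ℤ) else 0) - k i + m'
    have hq : ∑ i, q i = a := by
      simp only [q, Finset.sum_add_distrib, Finset.sum_sub_distrib, hm', Finset.sum_ite_eq',
        Finset.mem_univ, if_true, Finset.sum_const, Finset.card_univ, Fintype.card_fin,
        nsmul_eq_mul]
      push_cast
      ring
    have hqr : ∑ i, (q i : ℝ) = a := by exact_mod_cast hq
    have hq2 : (a : ℝ) ≤ ∑ i, (q i : ℝ) ^ 2 := by
      rw [← hqr]
      refine Finset.sum_le_sum fun i _ => ?_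
      have h : q i ≤ q i ^ 2 := Int.le_self_sq (q i)
      exact_mod_cast h
    have hd : ∀ i, dist ((vec (fun _ : Fin m => -((a : ℝ) / (m + 1)))) i) (v i) ^ 2 =
        (q i : ℝ) ^ 2 - 2 * (m' + (a : ℝ) / (m + 1)) * q i + (m' + (a : ℝ) / (m + 1)) ^ 2 := by
      intro i
      rw [Real.dist_eq, sq_abs, coord, hk]
      simp only [q]
      push_cast
      ring
    have hs : ∑ i, dist ((vec (fun _ : Fin m => -((a : ℝ) / (m + 1)))) i) (v i) ^ 2 =
        ∑ i, (q i : ℝ) ^ 2 - 2 * (m' + (a : ℝ) / (m + 1)) * a +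
          (m + 1) * (m' + (a : ℝ) / (m + 1)) ^ 2 := by
      simp only [hd]
      rw [Finset.sum_add_distrib, Finset.sum_sub_distrib, ← Finset.mul_sum, hqr, Finset.sum_const,
        Finset.card_univ, Fintype.card_fin, nsmul_eq_mul]
      push_cast
      ring
    rw [hs]
    have h1 : c = a - (a : ℝ) ^ 2 / (m + 1) := by
      rw [hc]
      field_simp
    have h2 : -(2 * (m' + (a : ℝ) / (m + 1)) * a) + (m + 1) * (m' + (a : ℝ) / (m + 1)) ^ 2 =
        (m + 1) * (m' : ℝ) ^ 2 - (a : ℝ) ^ 2 / (m + 1) := by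
      field_simp
      ring
    have h3 : 0 ≤ ((m : ℝ) + 1) * (m' : ℝ) ^ 2 := by positivity
    rw [h1]
    linarith
  calc c = √c ^ 2 := (Real.sq_sqrt hc0).symm
    _ ≤ _ := pow_le_pow_left₀ (Real.sqrt_nonneg c) key 2

end Pool.Agent.R711.TEGLUE
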