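import Pool.Agent.R978.UI.Stm

/-! MP_52097a_pr, piece A1 (helper711): expected component size in subcritical `G(n,p)`. -/

set_option autoImplicit false

namespace Pool.Agent.R711.UIA1

open Finset Pool.Agent.R980
open scoped Classical

/-- all coordinates of `F` are present -/
lemma bex_all {E : Type} [Fintype E] [DecidableEq E] (p : ℝ) (F : Finset E) :
    bex p (fun x : E → Bool => if ∀ e ∈ F, x e = true then (1 : ℝ) else 0) = p ^ F.card := by
  have h := bex_prod p (fun (e : E) (b : Bool) => if e ∈ F then (if b = true then (1 : ℝ) else 0) else 1)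
  have e1 : (fun x : E → Bool => if ∀ e ∈ F, x e = true then (1 : ℝ) else 0)
      = fun x => ∏ e, (if e ∈ F then (if x e = true then (1 : ℝ) else 0) else 1) := by
    funext x
    by_cases hx : ∀ e ∈ F, x e = true
    · rw [if_pos hx]
      symm
      apply Finset.prod_eq_one
      intro e _
      by_cases he : e ∈ F
      · rw [if_pos he, if_pos (hx e he)]
      · rw [if_neg he]
    · rw [if_neg hx]
      push Not at hx
      obtain ⟨e, he, hxe⟩ := hx
      symm
      apply Finset.prod_eq_zero (mem_univ e)
      rw [if_pos he, if_neg hxe]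
  rw [e1, h]
  have e2 : ∀ e : E, (p * (if e ∈ F then (if true = true then (1 : ℝ) else 0) else 1)
      + (1 - p) * (if e ∈ F then (if false = true then (1 : ℝ) else 0) else 1))
      = if e ∈ F then p else 1 := by
    intro e
    by_cases he : e ∈ F
    · simp [he]
    · simp [he]
  rw [Finset.prod_congr rfl (fun e _ => e2 e), Finset.prod_ite_mem, univ_inter, prod_const]

/-- the event that `w` is a path of `G` -/
def Pth {n j : ℕ} (G : SimpleGraph (Fin n)) (w : Fin (j + 1) → Fin n) : Prop :=
  ∀ i : Fin j, G.Adj (w i.castSucc) (w i.succ)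

lemma path_prob {n j : ℕ} (p : ℝ) (w : Fin (j + 1) → Fin n) (hw : Function.Injective w) :
    bex p (fun x : Edge n → Bool => if Pth (ofBool x) w then (1 : ℝ) else 0) = p ^ j := by
  have hnd : ∀ i : Fin j, ¬ (s(w i.castSucc, w i.succ) : Sym2 (Fin n)).IsDiag := by
    intro i h
    rw [Sym2.mk_isDiag_iff] at h
    have := hw h
    have h2 := congrArg Fin.val this
    simp at h2
  set ed : Fin j → Edge n := fun i => ⟨s(w i.castSucc, w i.succ), hnd i⟩ with hed
  have hinj : Function.Injective ed := by
    intro i i' h
    have h1 : (s(w i.castSucc, w i.succ) : Sym2 (Fin n)) = s(w i'.castSucc, w i'.succ) :=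
      congrArg Subtype.val h
    rw [Sym2.eq_iff] at h1
    rcases h1 with ⟨h1, _⟩ | ⟨h1, h2⟩
    · have := congrArg Fin.val (hw h1)
      simp at this
      exact Fin.ext this
    · have a1 := congrArg Fin.val (hw h1)
      have a2 := congrArg Fin.val (hw h2)
      simp at a1 a2
      omega
  have hcard : (univ.image ed).card = j := by
    rw [Finset.card_image_of_injective _ hinj, Finset.card_univ, Fintype.card_fin]
  have h := bex_all p (univ.image ed)
  rw [hcard] at h
  rw [← h]
  congr 1
  funext x
  have : Pth (ofBool x) w ↔ ∀ e ∈ univ.image ed, x e = true := by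
    unfold Pth
    constructor
    · intro hx e he
      rw [mem_image] at he
      obtain ⟨i, _, rfl⟩ := he
      obtain ⟨_, hx'⟩ := hx i
      exact hx'
    · intro hx i
      exact ⟨hnd i, hx _ (mem_image.2 ⟨i, mem_univ i, rfl⟩)⟩
  by_cases hx : Pth (ofBool x) w
  · rw [if_pos hx, if_pos (this.1 hx)]
  · rw [if_neg hx, if_neg (fun h => hx (this.2 h))]

/-- the paths starting at `v` -/
noncomputable def Pset (n : ℕ) (G : SimpleGraph (Fin n)) (v : Fin n) (j : ℕ) :
    Finset (Fin (j + 1) → Fin n) :=
  univ.filter (fun w => (Function.Injective w ∧ w 0 = v) ∧ Pth G w)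

lemma comp_le {n : ℕ} (G : SimpleGraph (Fin n)) (v : Fin n) :
    (univ.filter fun u => G.Reachable v u).card ≤ ∑ j ∈ range n, (Pset n G v j).card := by
  have hsub : (univ.filter fun u => G.Reachable v u) ⊆
      ((range n).sigma (fun j => Pset n G v j)).image (fun x => x.2 (Fin.last x.1)) := by
    intro u hu
    rw [mem_filter] at hu
    obtain ⟨P, hP⟩ := hu.2.exists_isPath
    rw [mem_image]
    have hlen : P.length < n := by
      have := hP.length_lt
      rwa [Fintype.card_fin] at this
    refine ⟨⟨P.length, fun i => P.getVert i⟩, ?_, ?_⟩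
    · rw [mem_sigma, mem_range]
      refine ⟨hlen, ?_⟩
      unfold Pset
      rw [mem_filter]
      refine ⟨mem_univ _, ⟨?_, ?_⟩, ?_⟩
      · intro a b hab
        have := hP.getVert_injOn (by simp; omega) (by simp; omega) hab
        exact Fin.ext this
      · exact P.getVert_zero
      · intro i
        exact P.adj_getVert_succ i.isLt
    · exact P.getVert_length
  refine (card_le_card hsub).trans (card_image_le.trans ?_)
  rw [card_sigma]

lemma card_start (n j : ℕ) (v : Fin n) :
    ((univ : Finset (Fin (j + 1) → Fin n)).filter (fun w => w 0 = v)).card = n ^ j := by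
  have h : ((univ : Finset (Fin (j + 1) → Fin n)).filter (fun w => w 0 = v)).card
      = (univ : Finset (Fin j → Fin n)).card := by
    refine Finset.card_nbij' (fun w => Fin.tail w) (fun t => Fin.cons v t) ?_ ?_ ?_ ?_
    · intro w _; exact mem_univ _
    · intro t _
      rw [mem_coe, mem_filter]
      exact ⟨mem_univ _, rfl⟩
    · intro w hw
      rw [mem_coe, mem_filter] at hw
      show Fin.cons v (Fin.tail w) = w
      rw [← hw.2]
      exact Fin.cons_self_tail w
    · intro t _
      funext i
      rfl
  rw [h, Finset.card_univ, Fintype.card_fun, Fintype.card_fin, Fintype.card_fin]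

lemma bex_sum {E ι : Type} [Fintype E] [DecidableEq E] (p : ℝ) (s : Finset ι)
    (f : ι → (E → Bool) → ℝ) : bex p (fun x => ∑ i ∈ s, f i x) = ∑ i ∈ s, bex p (f i) := by
  unfold bex
  rw [sum_comm]
  exact sum_congr rfl fun x _ => by rw [mul_sum]

lemma exp_paths {n : ℕ} {p : ℝ} (h0 : 0 ≤ p) (v : Fin n) (j : ℕ) :
    bex p (fun x : Edge n → Bool => ((Pset n (ofBool x) v j).card : ℝ)) ≤ ((n : ℝ) * p) ^ j := by
  have e1 : (fun x : Edge n → Bool => ((Pset n (ofBool x) v j).card : ℝ))
      = fun x => ∑ w ∈ (univ : Finset (Fin (j + 1) → Fin n)).filter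
        (fun w => Function.Injective w ∧ w 0 = v), if Pth (ofBool x) w then (1 : ℝ) else 0 := by
    funext x
    unfold Pset
    rw [← Finset.filter_filter, Finset.card_filter]
    push_cast
    rfl
  rw [e1, bex_sum]
  have e2 : ∀ w ∈ (univ : Finset (Fin (j + 1) → Fin n)).filter
        (fun w => Function.Injective w ∧ w 0 = v),
      bex p (fun x : Edge n → Bool => if Pth (ofBool x) w then (1 : ℝ) else 0) = p ^ j := by
    intro w hw
    rw [mem_filter] at hw
    exact path_prob p w hw.2.1
  rw [Finset.sum_congr rfl e2, Finset.sum_const, nsmul_eq_mul, mul_pow]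
  have h3 : ((univ : Finset (Fin (j + 1) → Fin n)).filter
        (fun w => Function.Injective w ∧ w 0 = v)).card ≤ n ^ j := by
    rw [← card_start n j v]
    apply card_le_card
    intro w hw
    rw [mem_filter] at hw ⊢
    exact ⟨hw.1, hw.2.2⟩
  have h3' : (((univ : Finset (Fin (j + 1) → Fin n)).filter
        (fun w => Function.Injective w ∧ w 0 = v)).card : ℝ) ≤ (n : ℝ) ^ j := by exact_mod_cast h3
  gcongr

theorem stmtA1 : R978UI.StmtA1 := by
  intro δ hδ hδ1 n K hn hK p h0 hp
  have hn' : (1 : ℝ) ≤ n := by exact_mod_cast hn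
  have hK' : (1 : ℝ) ≤ K := by exact_mod_cast hK
  have hnp : (n : ℝ) * p ≤ 1 - δ := by
    rw [le_div_iff₀ (by linarith)] at hp
    linarith
  have hp1 : p ≤ 1 := by nlinarith
  have hone : ∀ v : Fin n, gnp n p (fun G => K < (univ.filter fun u => G.Reachable v u).card)
      ≤ (1 / δ) / K := by
    intro v
    have hm := gnp_markov h0 hp1
      (fun G => K < (univ.filter fun u => G.Reachable v u).card)
      (fun x : Edge n → Bool => ∑ j ∈ range n, ((Pset n (ofBool x) v j).card : ℝ))
      (fun x => Finset.sum_nonneg fun j _ => Nat.cast_nonneg _) K (by linarith) (by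
        intro x hx
        have h1 := comp_le (ofBool x) v
        have h2 : (K : ℝ) ≤ ((∑ j ∈ range n, (Pset n (ofBool x) v j).card : ℕ) : ℝ) := by
          exact_mod_cast (hx.le.trans h1)
        push_cast at h2
        exact h2)
    refine hm.trans ?_
    gcongr
    rw [bex_sum]
    calc ∑ j ∈ range n, bex p (fun x : Edge n → Bool => ((Pset n (ofBool x) v j).card : ℝ))
        ≤ ∑ j ∈ range n, (1 - δ) ^ j := by
          apply Finset.sum_le_sum
          intro j _
          refine (exp_paths h0 v j).trans ?_
          have : 0 ≤ (n : ℝ) * p := by positivity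
          gcongr
      _ ≤ 1 / δ := by
          rw [geom_sum_eq (by linarith)]
          have e : ((1 - δ) ^ n - 1) / (1 - δ - 1) = (1 - (1 - δ) ^ n) / δ := by
            have : 1 - δ - 1 = -δ := by ring
            rw [this, div_neg, ← neg_div]
            congr 1
            ring
          rw [e]
          gcongr
          have : 0 ≤ (1 - δ) ^ n := pow_nonneg (by linarith) n
          linarith
  calc ∑ v : Fin n, gnp n p (fun G => K < (univ.filter fun u => G.Reachable v u).card)
      ≤ ∑ v : Fin n, (1 / δ) / K := Finset.sum_le_sum fun v _ => hone v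
    _ = n / (δ * K) := by
      rw [Finset.sum_const, Finset.card_univ, Fintype.card_fin, nsmul_eq_mul]
      field_simp

end Pool.Agent.R711.UIA1
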