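import Mathlib

/-!
Words over a finite alphabet, ordered by ordered surjections (the well-quasi-order behind the
noetherian property of representations of the category of finite sets and surjections).
-/

set_option autoImplicit false

namespace Pool.Agent.R711.Words

/-- `φ` is an ordered surjection; `h i` is the least preimage of `i`. -/
structure OrdSurj {l k : ℕ} (φ : Fin l → Fin k) (h : Fin k → Fin l) : Prop where
  mono : StrictMono h
  sec : ∀ i, φ (h i) = i
  le : ∀ j, h (φ j) ≤ j

theorem OrdSurj.surj {l k : ℕ} {φ : Fin l → Fin k} {h : Fin k → Fin l} (H : OrdSurj φ h) :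
    Function.Surjective φ := fun i => ⟨h i, H.sec i⟩

theorem OrdSurj.id (k : ℕ) : OrdSurj (id : Fin k → Fin k) id :=
  ⟨strictMono_id, fun _ => rfl, fun _ => le_refl _⟩

theorem OrdSurj.comp {m l k : ℕ} {φ : Fin l → Fin k} {h : Fin k → Fin l} (H : OrdSurj φ h)
    {ψ : Fin m → Fin l} {g : Fin l → Fin m} (G : OrdSurj ψ g) :
    OrdSurj (φ ∘ ψ) (g ∘ h) :=
  ⟨G.mono.comp H.mono, fun i => by simp [G.sec, H.sec], fun j =>
    le_trans (G.mono.monotone (H.le (ψ j))) (G.le j)⟩

variable {X : Type*}

/-- The word `u` is obtained from the word `w` by an ordered surjection. -/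
def Rel (w u : Σ k : ℕ, (Fin k → X)) : Prop :=
  ∃ (φ : Fin u.1 → Fin w.1) (h : Fin w.1 → Fin u.1), OrdSurj φ h ∧ u.2 = w.2 ∘ φ

open Classical in
/-- Mark the first occurrences of the letters. -/
noncomputable def mark {k : ℕ} (w : Fin k → X) (i : Fin k) : X × Bool :=
  (w i, decide (∀ j < i, w j ≠ w i))

theorem rel_of_sublist {k l : ℕ} (w : Fin k → X) (u : Fin l → X)
    (hs : (List.ofFn (mark w)).Sublist (List.ofFn (mark u)))
    (hl : ∀ j, ∃ i, w i = u j) : Rel ⟨k, w⟩ ⟨l, u⟩ := by
  classical
  rw [List.sublist_iff_exists_fin_orderEmbedding_get_eq] at hs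
  obtain ⟨f, hf⟩ := hs
  have hk : (List.ofFn (mark w)).length = k := List.length_ofFn
  have hl' : (List.ofFn (mark u)).length = l := List.length_ofFn
  let h : Fin k → Fin l := fun i => Fin.cast hl' (f (Fin.cast hk.symm i))
  have hmono : StrictMono h := by
    intro a b hab
    have : f (Fin.cast hk.symm a) < f (Fin.cast hk.symm b) := f.strictMono (by simpa using hab)
    simpa [h] using this
  have hmark : ∀ i, mark w i = mark u (h i) := by
    intro i
    have := hf (Fin.cast hk.symm i)
    simp only [List.get_ofFn] at this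
    exact this
  -- first occurrence of a letter of `u` in `w`
  have hex : ∀ j, ∃ i, w i = u j ∧ ∀ i' < i, w i' ≠ w i := by
    intro j
    obtain ⟨i, hi⟩ := hl j
    have hne : (Finset.univ.filter (fun i => w i = u j)).Nonempty := ⟨i, by simp [hi]⟩
    refine ⟨(Finset.univ.filter (fun i => w i = u j)).min' hne, ?_, ?_⟩
    · have := Finset.min'_mem _ hne
      simpa using this
    · intro i' hi' hw
      have h1 := Finset.min'_mem _ hne
      have h2 : i' ∈ Finset.univ.filter (fun i => w i = u j) := by
        simp only [Finset.mem_filter, Finset.mem_univ, true_and] at h1 ⊢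
        rw [hw, h1]
      exact absurd (Finset.min'_le _ _ h2) (not_le.mpr hi')
  choose i0 hi0 hi0' using hex
  let φ : Fin l → Fin k := fun j => if hj : ∃ i, h i = j then hj.choose else i0 j
  have hφh : ∀ i, φ (h i) = i := by
    intro i
    have hj : ∃ i', h i' = h i := ⟨i, rfl⟩
    simp only [φ, dif_pos hj]
    exact hmono.injective hj.choose_spec
  refine ⟨φ, h, ⟨hmono, hφh, ?_⟩, ?_⟩
  · intro j
    by_cases hj : ∃ i, h i = j
    · simp only [φ, dif_pos hj]
      exact le_of_eq hj.choose_spec
    · simp only [φ, dif_neg hj]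
      by_contra hlt
      push Not at hlt
      have h1 := hmark (i0 j)
      have h2 : (mark w (i0 j)).2 = true := by
        simp only [mark, decide_eq_true_eq]
        exact hi0' j
      rw [h1] at h2
      simp only [mark, decide_eq_true_eq] at h2
      apply h2 j hlt
      have h3 : w (i0 j) = u (h (i0 j)) := congrArg Prod.fst h1
      rw [← h3, hi0]
  · funext j
    simp only [Function.comp]
    by_cases hj : ∃ i, h i = j
    · simp only [φ, dif_pos hj]
      have h1 := congrArg Prod.fst (hmark hj.choose)
      simp only [mark] at h1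
      rw [h1, hj.choose_spec]
    · simp only [φ, dif_neg hj]
      exact (hi0 j).symm

/-- Words over a finite alphabet are well-quasi-ordered by ordered surjections. -/
theorem exists_subseq [Finite X] (s : ℕ → Σ k : ℕ, (Fin k → X)) :
    ∃ g : ℕ → ℕ, StrictMono g ∧ ∀ m n, m < n → Rel (s (g m)) (s (g n)) := by
  classical
  have := Fintype.ofFinite X
  have h1 : (Set.univ : Set (X × Bool)).PartiallyWellOrderedOn (· = ·) :=
    (Set.finite_univ).partiallyWellOrderedOn
  have h2 := Set.PartiallyWellOrderedOn.partiallyWellOrderedOn_sublistForall₂ (· = ·) h1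
  have hpre : IsPreorder (List (X × Bool)) (List.SublistForall₂ (· = ·)) :=
    { refl := fun l => List.sublistForall₂_iff.2 ⟨l, by simp, List.Sublist.refl l⟩
      trans := fun a b c hab hbc => by
        rw [List.sublistForall₂_iff] at *
        obtain ⟨l, hl1, hl2⟩ := hab
        obtain ⟨l', hl1', hl2'⟩ := hbc
        rw [List.forall₂_eq_eq_eq] at *
        subst hl1 hl1'
        exact ⟨a, rfl, hl2.trans hl2'⟩ }
  obtain ⟨g, hg⟩ := h2.exists_monotone_subseq (f := fun n => List.ofFn (mark (s n).2))
    (fun n x _ => Set.mem_univ x)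
  let F : ℕ → Finset X := fun n => Finset.univ.image (s (g n)).2
  obtain ⟨c, hc⟩ := Finite.exists_infinite_fiber F
  have hinf : (F ⁻¹' {c}).Infinite := Set.infinite_coe_iff.mp hc
  have : Infinite (F ⁻¹' {c}) := hc
  let e := Nat.orderEmbeddingOfSet (F ⁻¹' {c})
  refine ⟨fun n => g (e n), fun a b hab => g.strictMono (e.strictMono hab), ?_⟩
  intro m n hmn
  have hle : e m ≤ e n := e.monotone hmn.le
  have h3 := hg (e m) (e n) hle
  rw [List.sublistForall₂_iff] at h3
  obtain ⟨l, hl1, hl2⟩ := h3
  have hl1' : List.ofFn (mark (s (g (e m))).2) = l := by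
    rw [List.forall₂_eq_eq_eq] at hl1
    exact hl1
  rw [← hl1'] at hl2
  have hmem : ∀ n, F (e n) = c := by
    intro n
    have : e n ∈ Set.range (Nat.orderEmbeddingOfSet (F ⁻¹' {c})) := ⟨n, rfl⟩
    rw [Nat.orderEmbeddingOfSet_range] at this
    exact this
  have h4 := rel_of_sublist (s (g (e m))).2 (s (g (e n))).2 hl2 (by
    intro j
    have h5 : (s (g (e n))).2 j ∈ F (e n) := Finset.mem_image_of_mem _ (Finset.mem_univ _)
    rw [hmem n, ← hmem m] at h5
    simpa [F] using h5)
  exact h4

end Pool.Agent.R711.Words
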